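import Mathlib
import Pool.Agent.H94.IC.Targets2

/-!
# The flux lemma (MP_0ee698_an, module FLX)
-/

open MeasureTheory Set Filter Topology Metric
open scoped ENNReal NNReal ContDiff RealInnerProductSpace
open Pool.Agent.H94.IC

namespace Pool.Agent.H89.IC

theorem inner_gr (f : E → ℝ) (x v : E) : ⟪gr f x, v⟫ = fderiv ℝ f x v := by
  unfold gr gradient
  rw [InnerProductSpace.toDual_symm_apply]

theorem inner_gr' (f : E → ℝ) (x v : E) : ⟪v, gr f x⟫ = fderiv ℝ f x v := by
  rw [real_inner_comm, inner_gr]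

theorem gr_apply (f : E → ℝ) (x : E) (k : Fin 3) : (gr f x) k = pd k f x := by
  have h := inner_gr f x (ev k)
  rw [EuclideanSpace.inner_single_right] at h
  simpa [pd] using h

theorem sum_ev (x : E) : x = ∑ k : Fin 3, x k • ev k := by
  have := (EuclideanSpace.basisFun (Fin 3) ℝ).sum_repr x
  simpa using this.symm

theorem fderiv_gr (u g : E → ℝ) (x : E) : fderiv ℝ g x (gr u x) = ∑ k : Fin 3, pd k u x * pd k g x := by
  conv_lhs => rw [sum_ev (gr u x)]
  rw [map_sum]
  refine Finset.sum_congr rfl fun k _ => ?_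
  rw [map_smul, gr_apply]
  rfl

theorem pd_contDiffOn {O : Set E} (hO : IsOpen O) {f : E → ℝ} (hf : ContDiffOn ℝ ∞ f O) (k : Fin 3) :
    ContDiffOn ℝ ∞ (pd k f) O := by
  have h1 : ContDiffOn ℝ ∞ (fderiv ℝ f) O := hf.fderiv_of_isOpen hO (by simp)
  exact h1.clm_apply contDiffOn_const

/-- integration by parts: the gradient of a harmonic function is divergence free -/
theorem int_zero {O : Set E} (hO : IsOpen O) {u : E → ℝ} (hu : Harm O u) {p : E} {r : ℝ} (hr : 0 < r)
    (hpO : closedBall p (2 * r) ⊆ O) {g : E → ℝ} {K : ℝ≥0} (hg : LipschitzWith K g)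
    (hgs : tsupport g ⊆ ball p r) : ∫ y, fderiv ℝ g y (gr u y) = 0 := by
  have hgc : HasCompactSupport g :=
    (isCompact_closedBall p r).of_isClosed_subset (isClosed_tsupport g) (hgs.trans ball_subset_closedBall)
  let χ : ContDiffBump p := ⟨r, 2 * r, hr, by linarith⟩
  have hχ1 : ∀ y ∈ ball p r, (χ : E → ℝ) =ᶠ[𝓝 y] fun _ => 1 := by
    intro y hy
    filter_upwards [isOpen_ball.mem_nhds hy] with z hz
    exact χ.one_of_mem_closedBall (ball_subset_closedBall hz)
  have hχt : tsupport χ ⊆ O := by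
    rw [χ.tsupport_eq]
    exact hpO
  have hF : ∀ k : Fin 3, ContDiff ℝ ∞ (fun y => χ y * pd k u y) := by
    intro k
    rw [contDiff_iff_contDiffAt]
    intro x
    by_cases hx : x ∈ O
    · exact (χ.contDiff.contDiffAt).mul ((pd_contDiffOn hO hu.1 k).contDiffAt (hO.mem_nhds hx))
    · have hx' : x ∉ tsupport χ := fun h => hx (hχt h)
      have h0 : (fun y => χ y * pd k u y) =ᶠ[𝓝 x] fun _ => 0 := by
        have := (isClosed_tsupport χ).isOpen_compl.mem_nhds hx'
        filter_upwards [this] with z hz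
        rw [image_eq_zero_of_notMem_tsupport hz, zero_mul]
      exact contDiffAt_const.congr_of_eventuallyEq h0
  have hFc : ∀ k : Fin 3, HasCompactSupport (fun y => χ y * pd k u y) := by
    intro k
    exact χ.hasCompactSupport.mul_right
  have hFL : ∀ k : Fin 3, ∃ C : ℝ≥0, LipschitzWith C (fun y => χ y * pd k u y) := by
    intro k
    exact ContDiff.lipschitzWith_of_hasCompactSupport (hFc k) (hF k) (by simp)
  have hdiff := hg.ae_differentiableAt (μ := (volume : Measure E))
  -- pointwise identity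
  have h1 : ∀ y, fderiv ℝ g y (gr u y) = ∑ k : Fin 3, (χ y * pd k u y) * pd k g y := by
    intro y
    rw [fderiv_gr]
    refine Finset.sum_congr rfl fun k _ => ?_
    by_cases hy : y ∈ tsupport g
    · have := (hχ1 y (hgs hy)).eq_of_nhds
      rw [this, one_mul]
    · have h0 : fderiv ℝ g y = 0 := by
        have : g =ᶠ[𝓝 y] fun _ => 0 := by
          filter_upwards [(isClosed_tsupport g).isOpen_compl.mem_nhds hy] with z hz
          exact image_eq_zero_of_notMem_tsupport hz
        rw [this.fderiv_eq]; simp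
      simp [pd, h0]
  have h2 : ∀ k : Fin 3, Integrable (fun y => (χ y * pd k u y) * lineDeriv ℝ g y (ev k)) := by
    intro k
    have hi : Integrable (fun y => χ y * pd k u y) := (hF k).continuous.integrable_of_hasCompactSupport (hFc k)
    have hm := (hg.memLp_lineDeriv (μ := (volume : Measure E)) (ev k))
    have := hi.mul_bdd (c := K * ‖(ev k : E)‖) hm.1
      (Eventually.of_forall fun x => norm_lineDeriv_le_of_lipschitz ℝ hg)
    exact this
  have h3 : ∀ k : Fin 3, ∫ y, (χ y * pd k u y) * lineDeriv ℝ g y (ev k)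
      = - ∫ y, pd k (fun z => χ z * pd k u z) y * g y := by
    intro k
    obtain ⟨C, hC⟩ := hFL k
    have := LipschitzWith.integral_lineDeriv_mul_eq (μ := (volume : Measure E)) hg hC (hFc k) (ev k)
    calc ∫ y, (χ y * pd k u y) * lineDeriv ℝ g y (ev k)
        = ∫ y, lineDeriv ℝ g y (ev k) * (χ y * pd k u y) := by
          congr 1; ext y; ring
      _ = ∫ y, lineDeriv ℝ (fun z => χ z * pd k u z) y (-(ev k)) * g y := this
      _ = ∫ y, - (pd k (fun z => χ z * pd k u z) y * g y) := by
          congr 1; ext y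
          have hd : DifferentiableAt ℝ (fun z => χ z * pd k u z) y :=
            ((hF k).differentiable (by simp)).differentiableAt
          rw [hd.lineDeriv_eq_fderiv]
          simp [pd]
      _ = _ := by rw [integral_neg]
  have h4 : ∀ y, ∑ k : Fin 3, pd k (fun z => χ z * pd k u z) y * g y = 0 := by
    intro y
    rw [← Finset.sum_mul]
    by_cases hy : y ∈ tsupport g
    · have : ∀ k : Fin 3, pd k (fun z => χ z * pd k u z) y = pd k (pd k u) y := by
        intro k
        have he : (fun z => χ z * pd k u z) =ᶠ[𝓝 y] pd k u := by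
          filter_upwards [hχ1 y (hgs hy)] with z hz
          rw [hz, one_mul]
        unfold pd at he ⊢
        rw [he.fderiv_eq]
      rw [Finset.sum_congr rfl fun k _ => this k]
      have hyO : y ∈ O := hpO (closedBall_subset_closedBall (by linarith) (ball_subset_closedBall (hgs hy)))
      rw [hu.2 y hyO, zero_mul]
    · rw [image_eq_zero_of_notMem_tsupport hy, mul_zero]
  calc ∫ y, fderiv ℝ g y (gr u y) = ∫ y, ∑ k : Fin 3, (χ y * pd k u y) * lineDeriv ℝ g y (ev k) := by
        refine integral_congr_ae ?_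
        filter_upwards [hdiff] with y hy
        rw [h1 y]
        refine Finset.sum_congr rfl fun k _ => ?_
        rw [hy.lineDeriv_eq_fderiv]
        rfl
    _ = ∑ k : Fin 3, ∫ y, (χ y * pd k u y) * lineDeriv ℝ g y (ev k) := integral_finsetSum _ fun k _ => h2 k
    _ = ∑ k : Fin 3, - ∫ y, pd k (fun z => χ z * pd k u z) y * g y := Finset.sum_congr rfl fun k _ => h3 k
    _ = - ∫ y, ∑ k : Fin 3, pd k (fun z => χ z * pd k u z) y * g y := by
        rw [Finset.sum_neg_distrib, integral_finsetSum]
        intro k _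
        have hc : Continuous (pd k (fun z => χ z * pd k u z)) := by
          have := ((hF k).continuous_fderiv (by simp)).clm_apply (continuous_const (y := (ev k : E)))
          exact this
        exact (hc.mul hg.continuous).integrable_of_hasCompactSupport hgc.mul_left
    _ = 0 := by simp only [h4]; simp

/-- the cutoff -/
noncomputable def hh (ρ : E → ℝ) (e : ℝ) (x : E) : ℝ := min 1 (max 0 (ρ x / e - 1))

theorem hh_nonneg (ρ : E → ℝ) (e : ℝ) (x : E) : 0 ≤ hh ρ e x := le_min zero_le_one (le_max_left _ _)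

theorem hh_le_one (ρ : E → ℝ) (e : ℝ) (x : E) : hh ρ e x ≤ 1 := min_le_left _ _

theorem hh_sub (ρ : E → ℝ) {e : ℝ} (he : 0 < e) (x y : E) : |hh ρ e x - hh ρ e y| ≤ e⁻¹ * |ρ x - ρ y| := by
  unfold hh
  have h1 := abs_min_sub_min_le_max (1 : ℝ) (max 0 (ρ x / e - 1)) 1 (max 0 (ρ y / e - 1))
  have h2 := abs_max_sub_max_le_max (0 : ℝ) (ρ x / e - 1) 0 (ρ y / e - 1)
  have h3 : |(ρ x / e - 1) - (ρ y / e - 1)| = e⁻¹ * |ρ x - ρ y| := by
    rw [show (ρ x / e - 1) - (ρ y / e - 1) = e⁻¹ * (ρ x - ρ y) by field_simp; ring, abs_mul,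
      abs_of_pos (inv_pos.2 he)]
  rw [sub_self, abs_zero] at h1 h2
  have h4 : 0 ≤ e⁻¹ * |ρ x - ρ y| := by positivity
  rw [h3, max_eq_right h4] at h2
  exact h1.trans (max_le h4 h2)

theorem hh_zero (ρ : E → ℝ) (e : ℝ) {x : E} (h : ρ x = 0) : hh ρ e x = 0 := by
  unfold hh; rw [h]; norm_num

theorem hh_one {ρ : E → ℝ} {e : ℝ} (he : 0 < e) {x : E} (h : 2 * e ≤ ρ x) : hh ρ e x = 1 := by
  unfold hh
  have : 1 ≤ ρ x / e - 1 := by
    have : 2 ≤ ρ x / e := by rw [le_div_iff₀ he]; exact h
    linarith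
  rw [max_eq_right (by linarith), min_eq_left this]

theorem hh_lip {ρ : E → ℝ} (hρ : LipschitzWith 1 ρ) {e : ℝ} (he : 0 < e) :
    LipschitzWith (Real.toNNReal e⁻¹) (hh ρ e) := by
  refine LipschitzWith.of_dist_le_mul fun x y => ?_
  rw [Real.coe_toNNReal _ (by positivity), Real.dist_eq]
  refine (hh_sub ρ he x y).trans ?_
  have := hρ.dist_le_mul x y
  rw [Real.dist_eq] at this
  simp only [NNReal.coe_one, one_mul] at this
  gcongr

/-- comparison of derivatives -/
theorem fderiv_le {f g : E → ℝ} {c : ℝ} (h : ∀ x y, |f x - f y| ≤ c * |g x - g y|) {x : E}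
    (hf : DifferentiableAt ℝ f x) (hg : DifferentiableAt ℝ g x) (v : E) :
    |fderiv ℝ f x v| ≤ c * |fderiv ℝ g x v| := by
  have h1 : Tendsto (fun t : ℝ => |t⁻¹ • (f (x + t • v) - f x)|) (𝓝[≠] 0) (𝓝 |fderiv ℝ f x v|) :=
    ((hf.hasFDerivAt.hasLineDerivAt v).tendsto_slope_zero).abs
  have h2 : Tendsto (fun t : ℝ => c * |t⁻¹ • (g (x + t • v) - g x)|) (𝓝[≠] 0) (𝓝 (c * |fderiv ℝ g x v|)) :=
    (((hg.hasFDerivAt.hasLineDerivAt v).tendsto_slope_zero).abs).const_mul c
  refine le_of_tendsto_of_tendsto' h1 h2 fun t => ?_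
  rw [smul_eq_mul, smul_eq_mul, abs_mul, abs_mul]
  have := h (x + t • v) x
  calc |t⁻¹| * |f (x + t • v) - f x| ≤ |t⁻¹| * (c * |g (x + t • v) - g x|) := by gcongr
    _ = _ := by ring

theorem two_mul_tendsto : Tendsto (fun e : ℝ => 2 * e) (𝓝[>] 0) (𝓝 0) := by
  have h : Continuous fun e : ℝ => 2 * e := by fun_prop
  have h2 := h.tendsto 0
  rw [mul_zero] at h2
  exact h2.mono_left nhdsWithin_le_nhds

/-- the core of the flux lemma -/
theorem core {O : Set E} (hO : IsOpen O) {u : E → ℝ} (hu : Harm O u) {p : E} {r : ℝ} (hr : 0 < r)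
    (hpO : closedBall p (2 * r) ⊆ O) {Z D : Set E} (hZ0 : volume (Z ∩ ball p r) = 0)
    {ρ : E → ℝ} (hρL : LipschitzWith 1 ρ) (hρ0 : ∀ x, 0 ≤ ρ x) (hρz : ∀ x ∈ ball p r, ρ x = 0 ↔ x ∈ Z)
    {L r0 : ℝ} (hr0 : 0 < r0) (hL : 0 ≤ L)
    (hρd : ∀ x ∈ ball p r, ρ x < r0 → DifferentiableAt ℝ ρ x → |fderiv ℝ ρ x (gr u x)| ≤ L * ρ x)
    (hD : IsOpen D) (hDZ : ∀ x ∈ ball p r, x ∉ Z → x ∉ D → ∀ᶠ y in 𝓝 x, y ∉ D)
    {φ : E → ℝ} {K : ℝ≥0} (hφ : LipschitzWith K φ) (hφs : tsupport φ ⊆ ball p r) :
    ∫ y in D, ⟪gr u y, gr φ y⟫ = 0 := by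
  have hφc : HasCompactSupport φ :=
    (isCompact_closedBall p r).of_isClosed_subset (isClosed_tsupport φ) (hφs.trans ball_subset_closedBall)
  obtain ⟨M, hM⟩ := hφ.continuous.bounded_above_of_compact_support hφc
  have hM0 : 0 ≤ M := (norm_nonneg _).trans (hM p)
  -- the functions g_e
  let G : ℝ → E → ℝ := fun e => D.indicator fun x => hh ρ e x * φ x
  have hG0 : ∀ e x, x ∉ tsupport φ → G e x = 0 := by
    intro e x hx
    simp only [G, indicator]
    split_ifs
    · rw [image_eq_zero_of_notMem_tsupport hx, mul_zero]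
    · rfl
  have hprod : ∀ e, 0 < e → ∀ x y, |hh ρ e x * φ x - hh ρ e y * φ y| ≤ (K + e⁻¹ * M) * dist x y := by
    intro e he x y
    have h1 : |φ x - φ y| ≤ K * dist x y := by
      have := hφ.dist_le_mul x y
      rwa [Real.dist_eq] at this
    have h2 : |hh ρ e x - hh ρ e y| ≤ e⁻¹ * dist x y := by
      have := (hh_lip hρL he).dist_le_mul x y
      rwa [Real.dist_eq, Real.coe_toNNReal _ (by positivity)] at this
    have h3 : hh ρ e x * φ x - hh ρ e y * φ y = hh ρ e x * (φ x - φ y) + (hh ρ e x - hh ρ e y) * φ y := by ring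
    rw [h3]
    refine (abs_add_le _ _).trans ?_
    rw [abs_mul, abs_mul, abs_of_nonneg (hh_nonneg ρ e x)]
    have h4 := hh_le_one ρ e x
    have h5 := hM y
    rw [Real.norm_eq_abs] at h5
    calc hh ρ e x * |φ x - φ y| + |hh ρ e x - hh ρ e y| * |φ y|
        ≤ 1 * (K * dist x y) + (e⁻¹ * dist x y) * M := by
          gcongr
      _ = _ := by ring
  have hGL : ∀ e, 0 < e → LipschitzWith (Real.toNNReal (K + e⁻¹ * M)) (G e) := by
    intro e he
    refine LipschitzWith.of_dist_le_mul fun x y => ?_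
    rw [Real.coe_toNNReal _ (by positivity), Real.dist_eq]
    -- a point between x and y where the product vanishes
    have key : ∀ x y : E, x ∈ D → y ∉ D → |hh ρ e x * φ x| ≤ (K + e⁻¹ * M) * dist x y := by
      intro x y hx hy
      have hex : ∃ z ∈ segment ℝ x y, hh ρ e z * φ z = 0 := by
        by_contra hcon
        push Not at hcon
        have hz : ∀ z ∈ segment ℝ x y, z ∈ ball p r ∧ z ∉ Z := by
          intro z hz
          have h0 := hcon z hz
          have hzb : z ∈ ball p r := by
            by_contra hzb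
            exact h0 (by rw [image_eq_zero_of_notMem_tsupport (fun h => hzb (hφs h)), mul_zero])
          refine ⟨hzb, fun hzZ => h0 ?_⟩
          rw [hh_zero ρ e ((hρz z hzb).2 hzZ), zero_mul]
        have hconn : IsPreconnected (segment ℝ x y) := (convex_segment x y).isPreconnected
        have hcov : segment ℝ x y ⊆ D ∪ interior Dᶜ := by
          intro z hzs
          by_cases hzD : z ∈ D
          · exact Or.inl hzD
          · right
            rw [mem_interior_iff_mem_nhds]
            exact hDZ z (hz z hzs).1 (hz z hzs).2 hzD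
        have hdisj : Disjoint D (interior Dᶜ) :=
          disjoint_left.2 fun z h1 h2 => (interior_subset h2) h1
        have hsub := IsPreconnected.subset_left_of_subset_union hD isOpen_interior hdisj hcov
          ⟨x, left_mem_segment ℝ x y, hx⟩ hconn
        exact hy (hsub (right_mem_segment ℝ x y))
      obtain ⟨z, hzs, hz0⟩ := hex
      have h1 := hprod e he x z
      rw [hz0, sub_zero] at h1
      refine h1.trans ?_
      have h2 : dist x z ≤ dist x y := by
        obtain ⟨a, b, ha, hb, hab, rfl⟩ := hzs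
        rw [dist_eq_norm, dist_eq_norm]
        have : x - (a • x + b • y) = b • (x - y) := by
          rw [show a = 1 - b by linarith, sub_smul, one_smul, smul_sub]; abel
        rw [this, norm_smul, Real.norm_eq_abs, abs_of_nonneg hb]
        have hb1 : b ≤ 1 := by linarith
        exact mul_le_of_le_one_left (norm_nonneg _) hb1
      gcongr
    by_cases hx : x ∈ D <;> by_cases hy : y ∈ D
    · simp only [G, indicator_of_mem hx, indicator_of_mem hy]
      exact hprod e he x y
    · simp only [G, indicator_of_mem hx, indicator_of_notMem hy, sub_zero]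
      exact key x y hx hy
    · simp only [G, indicator_of_mem hy, indicator_of_notMem hx, zero_sub, abs_neg]
      rw [dist_comm]
      exact key y x hy hx
    · simp only [G, indicator_of_notMem hy, indicator_of_notMem hx, sub_zero, abs_zero]
      positivity
  have hGs : ∀ e, tsupport (G e) ⊆ ball p r := by
    intro e
    refine (closure_minimal ?_ (isClosed_tsupport φ)).trans hφs
    intro x hx
    by_contra h
    exact hx (hG0 e x h)
  -- zero flux for g_e
  have hI : ∀ e, 0 < e → ∫ y, fderiv ℝ (G e) y (gr u y) = 0 := fun e he =>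
    int_zero hO hu hr hpO (hGL e he) (hGs e)
  -- measurability
  have hBO : ball p r ⊆ O := (ball_subset_closedBall.trans (closedBall_subset_closedBall (by linarith))).trans hpO
  have hgrc : ContinuousOn (gr u) (closedBall p r) := by
    have h1 : ContDiffOn ℝ ∞ (fderiv ℝ u) O := hu.1.fderiv_of_isOpen hO (by simp)
    have h2 : ContinuousOn (fun x => (InnerProductSpace.toDual ℝ E).symm (fderiv ℝ u x)) O :=
      (InnerProductSpace.toDual ℝ E).symm.continuous.comp_continuousOn h1.continuousOn
    exact h2.mono ((closedBall_subset_closedBall (by linarith)).trans hpO)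
  obtain ⟨C1, hC1⟩ := (isCompact_closedBall p r).exists_bound_of_continuousOn hgrc
  have hmeas : ∀ f : E → ℝ, (∀ x, x ∉ ball p r → fderiv ℝ f x = 0) →
      AEStronglyMeasurable (fun y => fderiv ℝ f y (gr u y)) volume := by
    intro f hf
    have h1 : (fun y => fderiv ℝ f y (gr u y)) = (ball p r).indicator (fun y => fderiv ℝ f y (gr u y)) := by
      ext y
      by_cases hy : y ∈ ball p r
      · rw [indicator_of_mem hy]
      · rw [indicator_of_notMem hy, hf y hy]; simp
    rw [h1]
    rw [aestronglyMeasurable_indicator_iff measurableSet_ball]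
    have h2 : AEStronglyMeasurable (gr u) (volume.restrict (ball p r)) :=
      (hgrc.mono ball_subset_closedBall).aestronglyMeasurable measurableSet_ball
    have h3 : AEStronglyMeasurable (fderiv ℝ f) (volume.restrict (ball p r)) :=
      (measurable_fderiv ℝ f).aestronglyMeasurable
    exact (ContinuousLinearMap.apply ℝ ℝ).flip.aestronglyMeasurable_comp₂ h3 h2
  -- local behaviour
  have hZ0' : ∀ᵐ y ∂(volume : Measure E), y ∉ Z ∩ ball p r := by
    rw [ae_iff]; simpa only [not_not, ofPred_mem_eq] using hZ0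
  have hout : ∀ (e : ℝ) (y : E), y ∉ tsupport φ → fderiv ℝ (G e) y = 0 := by
    intro e y hy
    have : G e =ᶠ[𝓝 y] fun _ => 0 := by
      filter_upwards [(isClosed_tsupport φ).isOpen_compl.mem_nhds hy] with z hz
      exact hG0 e z hz
    rw [this.fderiv_eq]; simp
  have houtφ : ∀ y : E, y ∉ tsupport φ → fderiv ℝ φ y = 0 := by
    intro y hy
    have : φ =ᶠ[𝓝 y] fun _ => 0 := by
      filter_upwards [(isClosed_tsupport φ).isOpen_compl.mem_nhds hy] with z hz
      exact image_eq_zero_of_notMem_tsupport hz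
    rw [this.fderiv_eq]; simp
  have hnD : ∀ (e : ℝ) (y : E), y ∈ ball p r → y ∉ Z → y ∉ D → fderiv ℝ (G e) y = 0 := by
    intro e y hy hyZ hyD
    have : G e =ᶠ[𝓝 y] fun _ => 0 := by
      filter_upwards [hDZ y hy hyZ hyD] with z hz
      exact indicator_of_notMem hz _
    rw [this.fderiv_eq]; simp
  have hone : ∀ (e : ℝ) (y : E), 0 < e → 2 * e < ρ y → ∀ᶠ z in 𝓝 y, hh ρ e z = 1 := by
    intro e y he hey
    have : ∀ᶠ z in 𝓝 y, 2 * e < ρ z := hρL.continuous.continuousAt.eventually_const_lt hey
    filter_upwards [this] with z hz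
    exact hh_one he hz.le
  have hlim : ∀ᵐ y ∂(volume : Measure E), Tendsto (fun e : ℝ => fderiv ℝ (G e) y (gr u y)) (𝓝[>] 0)
      (𝓝 (D.indicator (fun y => fderiv ℝ φ y (gr u y)) y)) := by
    filter_upwards [hZ0'] with y hyZ
    by_cases hy : y ∈ tsupport φ
    · have hyb : y ∈ ball p r := hφs hy
      have hyZ' : y ∉ Z := fun h => hyZ ⟨h, hyb⟩
      have hρpos : 0 < ρ y := lt_of_le_of_ne (hρ0 y) fun h => hyZ' ((hρz y hyb).1 h.symm)
      have hev : ∀ᶠ e in 𝓝[>] (0 : ℝ), fderiv ℝ (G e) y (gr u y)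
          = D.indicator (fun y => fderiv ℝ φ y (gr u y)) y := by
        have h1 : ∀ᶠ e in 𝓝[>] (0 : ℝ), 2 * e < ρ y := by
          have : Tendsto (fun e : ℝ => 2 * e) (𝓝[>] 0) (𝓝 0) := two_mul_tendsto
          exact this.eventually_lt_const hρpos
        filter_upwards [h1, self_mem_nhdsWithin] with e he he0
        by_cases hyD : y ∈ D
        · rw [indicator_of_mem hyD]
          have : G e =ᶠ[𝓝 y] φ := by
            filter_upwards [hone e y he0 he, hD.mem_nhds hyD] with z hz hzD
            simp only [G, indicator_of_mem hzD, hz, one_mul]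
          rw [this.fderiv_eq]
        · rw [indicator_of_notMem hyD, hnD e y hyb hyZ' hyD]; simp
      exact (tendsto_congr' hev).2 tendsto_const_nhds
    · have h1 : D.indicator (fun y => fderiv ℝ φ y (gr u y)) y = 0 := by
        simp only [indicator, houtφ y hy]
        simp
      rw [h1]
      have h2 : (fun e : ℝ => fderiv ℝ (G e) y (gr u y)) = fun _ => 0 := by
        ext e; rw [hout e y hy]; simp
      rw [h2]
      exact tendsto_const_nhds
  have hbd : ∀ᶠ e in 𝓝[>] (0 : ℝ), ∀ᵐ y ∂(volume : Measure E), ‖fderiv ℝ (G e) y (gr u y)‖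
      ≤ (ball p r).indicator (fun _ => K * C1 + 2 * L * M) y := by
    have h1 : ∀ᶠ e in 𝓝[>] (0 : ℝ), 2 * e < r0 := by
      have : Tendsto (fun e : ℝ => 2 * e) (𝓝[>] 0) (𝓝 0) := two_mul_tendsto
      exact this.eventually_lt_const hr0
    filter_upwards [h1, self_mem_nhdsWithin] with e he he0
    have he0' : (0 : ℝ) < e := he0
    filter_upwards [hZ0', hφ.ae_differentiableAt (μ := (volume : Measure E)),
      hρL.ae_differentiableAt (μ := (volume : Measure E)),
      (hh_lip hρL he0').ae_differentiableAt (μ := (volume : Measure E))] with y hyZ hdφ hdρ hdh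
    by_cases hy : y ∈ tsupport φ
    · have hyb : y ∈ ball p r := hφs hy
      have hyZ' : y ∉ Z := fun h => hyZ ⟨h, hyb⟩
      rw [indicator_of_mem hyb]
      have hC1' : ‖gr u y‖ ≤ C1 := hC1 y (ball_subset_closedBall hyb)
      have hC10 : 0 ≤ C1 := (norm_nonneg _).trans hC1'
      by_cases hyD : y ∈ D
      · have hG : G e =ᶠ[𝓝 y] fun z => hh ρ e z * φ z := by
          filter_upwards [hD.mem_nhds hyD] with z hz
          simp only [G, indicator_of_mem hz]
        rw [hG.fderiv_eq, fderiv_fun_mul hdh hdφ]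
        simp only [add_apply, smul_apply, smul_eq_mul]
        have hA : |fderiv ℝ φ y (gr u y)| ≤ K * C1 := by
          have h2 := (fderiv ℝ φ y).le_opNorm (gr u y)
          rw [Real.norm_eq_abs] at h2
          refine h2.trans ?_
          have h3 := norm_fderiv_le_of_lipschitz ℝ hφ (x₀ := y)
          gcongr
        have hB : |fderiv ℝ (hh ρ e) y (gr u y)| ≤ 2 * L := by
          rcases lt_or_ge (2 * e) (ρ y) with h | h
          · have h3 : hh ρ e =ᶠ[𝓝 y] fun _ => 1 := hone e y he0' h
            rw [h3.fderiv_eq]; simp; positivity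
          · have h3 := fderiv_le (hh_sub ρ he0') hdh hdρ (gr u y)
            have h4 := hρd y hyb (by linarith) hdρ
            calc |fderiv ℝ (hh ρ e) y (gr u y)| ≤ e⁻¹ * |fderiv ℝ ρ y (gr u y)| := h3
              _ ≤ e⁻¹ * (L * (2 * e)) := by gcongr; exact h4.trans (by gcongr)
              _ = 2 * L := by field_simp
        rw [Real.norm_eq_abs]
        refine (abs_add_le _ _).trans ?_
        rw [abs_mul, abs_mul, abs_of_nonneg (hh_nonneg ρ e y)]
        have h5 := hh_le_one ρ e y
        have h6 := hM y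
        rw [Real.norm_eq_abs] at h6
        calc hh ρ e y * |fderiv ℝ φ y (gr u y)| + |φ y| * |fderiv ℝ (hh ρ e) y (gr u y)|
            ≤ 1 * (K * C1) + M * (2 * L) := by gcongr
          _ = _ := by ring
      · rw [hnD e y hyb hyZ' hyD]
        simp
        positivity
    · rw [hout e y hy]
      simp only [_root_.zero_apply, norm_zero]
      refine indicator_nonneg (fun x hx => ?_) y
      have hC1' : ‖gr u x‖ ≤ C1 := hC1 x (ball_subset_closedBall hx)
      have hC10 : 0 ≤ C1 := (norm_nonneg _).trans hC1'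
      positivity
  have hme : ∀ᶠ e in 𝓝[>] (0 : ℝ), AEStronglyMeasurable (fun y => fderiv ℝ (G e) y (gr u y)) volume :=
    Eventually.of_forall fun e => hmeas (G e) fun x hx => hout e x fun h => hx (hφs h)
  have hbi : Integrable ((ball p r).indicator (fun _ : E => K * C1 + 2 * L * M)) volume := by
    rw [integrable_indicator_iff measurableSet_ball]
    exact integrableOn_const (measure_ball_lt_top.ne) (by simp)
  have hT := tendsto_integral_filter_of_dominated_convergence _ hme hbd hbi hlim
  have hT0 : Tendsto (fun e : ℝ => ∫ y, fderiv ℝ (G e) y (gr u y)) (𝓝[>] 0) (𝓝 0) := by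
    refine (tendsto_congr' ?_).2 tendsto_const_nhds
    filter_upwards [self_mem_nhdsWithin] with e he
    exact hI e he
  have := tendsto_nhds_unique hT hT0
  rw [integral_indicator hD.measurableSet] at this
  rw [← this]
  congr 1
  ext y
  rw [inner_gr']

/-- the flux lemma -/
theorem flx (h1 : T_DST) (h2 : T_INC) : T_FLX := by
  intro N O u i D hO hOc hu hNT hD hDO
  obtain ⟨-, hcl, hnul⟩ := h2 N O u hO hu
  obtain ⟨-, hnull⟩ := hnul hOc hNT
  intro p hp
  obtain ⟨r, L, hr, hL, hpO, hdst⟩ := h1 N O u i p hO hp hu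
  refine ⟨r, hr, (ball_subset_closedBall.trans (closedBall_subset_closedBall (by linarith))).trans hpO, ?_⟩
  rintro φ ⟨K, hK⟩ - hφs
  have hpO2 : closedBall p (2 * r) ⊆ O := (closedBall_subset_closedBall (by linarith)).trans hpO
  have hbO : ball p r ⊆ O := (ball_subset_closedBall.trans (closedBall_subset_closedBall (by linarith))).trans hpO2
  set Z : Set E := Inv O u ∩ closedBall p (3 * r) with hZ
  have hZc : IsClosed Z := by
    rw [← isOpen_compl_iff, isOpen_iff_mem_nhds]
    intro x hx
    by_cases hxb : x ∈ closedBall p (3 * r)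
    · have hxO : x ∈ O := hpO (closedBall_subset_closedBall (by linarith) hxb)
      have hxI : x ∉ Inv O u := fun h => hx ⟨h, hxb⟩
      filter_upwards [hcl x hxO hxI] with y hy hyZ
      exact hy hyZ.1
    · filter_upwards [isClosed_closedBall.isOpen_compl.mem_nhds hxb] with y hy hyZ
      exact hy hyZ.2
  have hZ0 : volume (Z ∩ ball p r) = 0 :=
    measure_mono_null (fun x hx => hx.1.1) hnull
  have hmemZ : ∀ x ∈ ball p r, x ∈ Inv O u → x ∈ Z := fun x hx h =>
    ⟨h, closedBall_subset_closedBall (by linarith) (ball_subset_closedBall hx)⟩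
  have hDZ : ∀ x ∈ ball p r, x ∉ Z → x ∉ D → ∀ᶠ y in 𝓝 x, y ∉ D := fun x hx hxZ hxD =>
    hDO x (hbO hx) (fun h => hxZ (hmemZ x hx h)) hxD
  rcases Z.eq_empty_or_nonempty with hE | hN
  · refine core hO (hu i) hr hpO2 hZ0 (ρ := fun _ => 1) (LipschitzWith.const' _) (fun _ => zero_le_one)
      (fun x _ => ?_) hr hL (fun x _ _ _ => ?_) hD hDZ hK hφs
    · rw [hE]; simp
    · simp; exact hL
  · refine core hO (hu i) hr hpO2 hZ0 (ρ := fun x => infDist x Z) (lipschitz_infDist_pt Z)
      (fun x => infDist_nonneg) (fun x _ => ?_) hr hL (fun x hx hxr hd => ?_) hD hDZ hK hφs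
    · exact (hZc.mem_iff_infDist_zero hN).symm
    · exact hdst x hx hN hxr hd

end Pool.Agent.H89.IC
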