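import Mathlib
import Pool.Agent.H94.IC.Targets2
import Pool.Agent.H89.IC.FLX

/-!
# Tools for flux free sets (MP_0ee698_an)
-/

open MeasureTheory Set Filter Topology Metric
open scoped ENNReal NNReal ContDiff RealInnerProductSpace Manifold
open Pool.Agent.H94.IC

namespace Pool.Agent.H89.IC

/-- products of bounded Lipschitz functions -/
theorem lip_mul {f g : E → ℝ} {K1 K2 : ℝ≥0} {M1 M2 : ℝ} (hf : LipschitzWith K1 f) (hg : LipschitzWith K2 g)
    (hM1 : ∀ x, |f x| ≤ M1) (hM2 : ∀ x, |g x| ≤ M2) : ∃ K : ℝ≥0, LipschitzWith K (fun x => f x * g x) := by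
  have h1 : 0 ≤ M1 := (abs_nonneg _).trans (hM1 0)
  have h2 : 0 ≤ M2 := (abs_nonneg _).trans (hM2 0)
  refine ⟨Real.toNNReal (M1 * K2 + K1 * M2), LipschitzWith.of_dist_le_mul fun x y => ?_⟩
  rw [Real.coe_toNNReal _ (by positivity), Real.dist_eq]
  have h3 : |g x - g y| ≤ K2 * dist x y := by
    have := hg.dist_le_mul x y
    rwa [Real.dist_eq] at this
  have h4 : |f x - f y| ≤ K1 * dist x y := by
    have := hf.dist_le_mul x y
    rwa [Real.dist_eq] at this
  rw [show f x * g x - f y * g y = f x * (g x - g y) + (f x - f y) * g y by ring]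
  refine (abs_add_le _ _).trans ?_
  rw [abs_mul, abs_mul]
  have h5 := hM1 x
  have h6 := hM2 y
  calc |f x| * |g x - g y| + |f x - f y| * |g y| ≤ M1 * (K2 * dist x y) + (K1 * dist x y) * M2 := by gcongr
    _ = _ := by ring

/-- smooth cutoffs -/
theorem exists_cutoff {C U : Set E} (hC : IsCompact C) (hU : IsOpen U) (hCU : C ⊆ U) :
    ∃ θ : E → ℝ, ContDiff ℝ ∞ θ ∧ HasCompactSupport θ ∧ tsupport θ ⊆ U ∧ (∀ᶠ x in 𝓝ˢ C, θ x = 1) ∧
      ∀ x, θ x ∈ Icc 0 1 := by
  obtain ⟨V, hVc, hCV, hVU⟩ := exists_compact_between hC hU hCU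
  obtain ⟨f, hf1, hf0, hf⟩ := exists_contMDiffMap_one_nhds_of_subset_interior (n := ⊤) 𝓘(ℝ, E)
    (s := C) (t := V) hC.isClosed hCV
  have hts : tsupport f ⊆ V := closure_minimal (fun x hx => by
    by_contra h
    exact hx (hf0 x h)) hVc.isClosed
  exact ⟨f, f.contMDiff.contDiff, hVc.of_isClosed_subset (isClosed_tsupport _) hts, hts.trans hVU, hf1, hf⟩

/-- off the support the derivative vanishes -/
theorem fderiv_out {g : E → ℝ} {y : E} (hy : y ∉ tsupport g) : fderiv ℝ g y = 0 := by
  have : g =ᶠ[𝓝 y] fun _ => 0 := by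
    filter_upwards [(isClosed_tsupport g).isOpen_compl.mem_nhds hy] with z hz
    exact image_eq_zero_of_notMem_tsupport hz
  rw [this.fderiv_eq]; simp

/-- integrability -/
theorem integ {O : Set E} {F : E → E} (hF : ContinuousOn F O) {g : E → ℝ} {K : ℝ≥0} (hg : LipschitzWith K g)
    (hgc : HasCompactSupport g) (hgs : tsupport g ⊆ O) :
    Integrable (fun y => fderiv ℝ g y (F y)) (volume : Measure E) := by
  obtain ⟨C, hC⟩ := hgc.isCompact.exists_bound_of_continuousOn (hF.mono hgs)
  have h1 : (fun y => fderiv ℝ g y (F y)) = (tsupport g).indicator (fun y => fderiv ℝ g y (F y)) := by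
    ext y
    by_cases hy : y ∈ tsupport g
    · rw [indicator_of_mem hy]
    · rw [indicator_of_notMem hy, fderiv_out hy]; simp
  have h2 : AEStronglyMeasurable F (volume.restrict (tsupport g)) :=
    (hF.mono hgs).aestronglyMeasurable (isClosed_tsupport g).measurableSet
  have h3 : AEStronglyMeasurable (fderiv ℝ g) (volume.restrict (tsupport g)) :=
    (measurable_fderiv ℝ g).aestronglyMeasurable
  have h4 : AEStronglyMeasurable (fun y => fderiv ℝ g y (F y)) (volume.restrict (tsupport g)) :=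
    (ContinuousLinearMap.apply ℝ ℝ).flip.aestronglyMeasurable_comp₂ h3 h2
  have h5 : AEStronglyMeasurable (fun y => fderiv ℝ g y (F y)) volume := by
    rw [h1, aestronglyMeasurable_indicator_iff (isClosed_tsupport g).measurableSet]
    exact h4
  rw [h1, integrable_indicator_iff (isClosed_tsupport g).measurableSet]
  refine Measure.integrableOn_of_bounded (M := K * C) hgc.isCompact.measure_lt_top.ne h5 ?_
  refine (ae_restrict_iff' (isClosed_tsupport g).measurableSet).2 (Eventually.of_forall fun y hy => ?_)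
  refine ((fderiv ℝ g y).le_opNorm _).trans ?_
  have h5 := norm_fderiv_le_of_lipschitz ℝ hg (x₀ := y)
  have h6 := hC y hy
  gcongr

/-- flux free sets: test functions with compact support in the open set -/
theorem ff_sum {D O : Set E} {F : E → E} (hF : ContinuousOn F O)
    (h : FF D F O) {ψ : E → ℝ} {K : ℝ≥0} (hψ : LipschitzWith K ψ) (hψc : HasCompactSupport ψ)
    (hψs : tsupport ψ ⊆ O) : ∫ y in D, ⟪F y, gr ψ y⟫ = 0 := by
  choose! r hr hrO hr0 using h
  obtain ⟨t, ht⟩ := hψc.isCompact.elim_finite_subcover (fun x : tsupport ψ => ball (x : E) (r x))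
    (fun x => isOpen_ball) (fun x hx => mem_iUnion.2 ⟨⟨x, hx⟩, mem_ball_self (hr x (hψs hx))⟩)
  obtain ⟨f, hf⟩ := SmoothPartitionOfUnity.exists_isSubordinate 𝓘(ℝ, E) (isClosed_tsupport ψ)
    (fun i : t => ball ((i : tsupport ψ) : E) (r (i : tsupport ψ))) (fun i => isOpen_ball)
    (fun x hx => by
      obtain ⟨i, hi, hxi⟩ := mem_iUnion₂.1 (ht hx)
      exact mem_iUnion.2 ⟨⟨i, hi⟩, hxi⟩)
  have hfs : ∀ i : t, tsupport (f i) ⊆ ball ((i : tsupport ψ) : E) (r (i : tsupport ψ)) := fun i => hf i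
  have hfc : ∀ i : t, HasCompactSupport (f i) := fun i =>
    (isCompact_closedBall _ _).of_isClosed_subset (isClosed_tsupport _) ((hfs i).trans ball_subset_closedBall)
  have hfsm : ∀ i : t, ContDiff ℝ ∞ (f i) := fun i => (f i).contMDiff.contDiff
  have hfL : ∀ i : t, ∃ C : ℝ≥0, LipschitzWith C (f i) := fun i =>
    ContDiff.lipschitzWith_of_hasCompactSupport (hfc i) (hfsm i) (by simp)
  obtain ⟨M, hM⟩ := hψ.continuous.bounded_above_of_compact_support hψc
  have hgL : ∀ i : t, ∃ C : ℝ≥0, LipschitzWith C (fun x => f i x * ψ x) := by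
    intro i
    obtain ⟨C, hC⟩ := hfL i
    refine lip_mul (M1 := 1) (M2 := M) hC hψ (fun x => ?_) (fun x => ?_)
    · rw [abs_of_nonneg (f.nonneg i x)]
      exact f.le_one i x
    · have := hM x
      rwa [Real.norm_eq_abs] at this
  have hsum : ∀ x, ψ x = ∑ i : t, f i x * ψ x := by
    intro x
    rw [← Finset.sum_mul]
    by_cases hx : x ∈ tsupport ψ
    · have := f.sum_eq_one hx
      rw [finsum_eq_sum_of_fintype] at this
      rw [this, one_mul]
    · rw [image_eq_zero_of_notMem_tsupport hx, mul_zero]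
  have hgs : ∀ i : t, tsupport (fun x => f i x * ψ x) ⊆ tsupport (f i) := fun i =>
    tsupport_mul_subset_left
  have hgs' : ∀ i : t, tsupport (fun x => f i x * ψ x) ⊆ tsupport ψ := fun i =>
    tsupport_mul_subset_right
  have hgc : ∀ i : t, HasCompactSupport (fun x => f i x * ψ x) := fun i => (hfc i).mul_right
  have hz : ∀ i : t, ∫ y in D, ⟪F y, gr (fun x => f i x * ψ x) y⟫ = 0 := fun i =>
    hr0 _ (hψs (i : tsupport ψ).2) _ (hgL i) (hgc i) ((hgs i).trans (hfs i))
  have hdiff := hψ.ae_differentiableAt (μ := (volume : Measure E))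
  have he : ∀ᵐ y ∂(volume.restrict D), ⟪F y, gr ψ y⟫ = ∑ i : t, fderiv ℝ (fun x => f i x * ψ x) y (F y) := by
    refine ae_restrict_of_ae ?_
    filter_upwards [hdiff] with y hy
    rw [inner_gr']
    have h1 : fderiv ℝ ψ y = ∑ i : t, fderiv ℝ (fun x => f i x * ψ x) y := by
      have h2 : HasFDerivAt (fun x => ∑ i : t, f i x * ψ x) (∑ i : t, fderiv ℝ (fun x => f i x * ψ x) y) y := by
        refine HasFDerivAt.fun_sum fun i _ => ?_
        exact ((((hfsm i).differentiable (by simp)).differentiableAt).mul hy).hasFDerivAt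
      have h3 : (fun x => ∑ i : t, f i x * ψ x) = ψ := by ext x; exact (hsum x).symm
      rw [h3] at h2
      exact h2.fderiv
    rw [h1]
    simp only [FunLike.coe_sum, Finset.sum_apply]
  rw [integral_congr_ae he, integral_finsetSum]
  · refine Finset.sum_eq_zero fun i _ => ?_
    rw [← hz i]
    congr 1
    ext y
    rw [inner_gr']
  · intro i _
    obtain ⟨C, hC⟩ := hgL i
    exact (integ hF hC (hgc i) ((hgs' i).trans hψs)).integrableOn

end Pool.Agent.H89.IC
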