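import Mathlib
import Pool.Agent.H94.IC.Targets2
import Pool.Agent.H89.IC.FLX
import Pool.Agent.H89.IC.Tool

/-!
# No flux out of flux free sets (MP_0ee698_an, module FM0)
-/

open MeasureTheory Set Filter Topology Metric
open scoped ENNReal NNReal ContDiff RealInnerProductSpace Manifold
open Pool.Agent.H94.IC

namespace Pool.Agent.H89.IC

theorem coord_contDiff (k : Fin 3) : ContDiff ℝ ∞ (fun y : E => y k) := by fun_prop

/-- the bump `β` on the line -/
noncomputable def bet (s : ℝ) : ℝ := Real.smoothTransition (2 - s ^ 2)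

theorem bet_contDiff : ContDiff ℝ ∞ bet :=
  Real.smoothTransition.contDiff.comp (by fun_prop)

theorem bet_one {s : ℝ} (h : |s| ≤ 1) : bet s = 1 := by
  refine Real.smoothTransition.one_of_one_le ?_
  have : s ^ 2 ≤ 1 := by rw [← sq_abs]; nlinarith [abs_nonneg s]
  linarith

theorem bet_zero {s : ℝ} (h : 2 ≤ |s|) : bet s = 0 := by
  refine Real.smoothTransition.zero_of_nonpos ?_
  have : 4 ≤ s ^ 2 := by rw [← sq_abs]; nlinarith [abs_nonneg s]
  linarith

theorem bet_nonneg (s : ℝ) : 0 ≤ bet s := Real.smoothTransition.nonneg _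

theorem bet_le_one (s : ℝ) : bet s ≤ 1 := Real.smoothTransition.le_one _

theorem bet_deriv_bound : ∃ C : ℝ, 0 ≤ C ∧ ∀ s, |deriv bet s| ≤ C := by
  have hc : HasCompactSupport bet := by
    refine HasCompactSupport.of_support_subset_isCompact (K := Icc (-2) 2) isCompact_Icc fun s hs => ?_
    by_contra h
    refine hs (bet_zero ?_)
    by_contra h2
    exact h ⟨by linarith [neg_abs_le s, not_le.1 h2], by linarith [le_abs_self s, not_le.1 h2]⟩
  obtain ⟨K, hK⟩ := ContDiff.lipschitzWith_of_hasCompactSupport hc bet_contDiff (by simp)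
  exact ⟨K, K.2, fun s => norm_deriv_le_of_lipschitz hK⟩

/-- the bump in the radial direction -/
noncomputable def bb (η s : ℝ) : ℝ := Real.smoothTransition ((1 + 2 * η - s) / η)

theorem bb_contDiff (η : ℝ) : ContDiff ℝ ∞ (bb η) :=
  Real.smoothTransition.contDiff.comp (by fun_prop)

theorem bb_one {η s : ℝ} (hη : 0 < η) (h : s ≤ 1 + η) : bb η s = 1 := by
  refine Real.smoothTransition.one_of_one_le ?_
  rw [le_div_iff₀ hη]; linarith

theorem bb_zero {η s : ℝ} (hη : 0 < η) (h : 1 + 2 * η ≤ s) : bb η s = 0 := by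
  refine Real.smoothTransition.zero_of_nonpos ?_
  exact div_nonpos_of_nonpos_of_nonneg (by linarith) hη.le

theorem bb_nonneg (η s : ℝ) : 0 ≤ bb η s := Real.smoothTransition.nonneg _

theorem bb_le_one (η s : ℝ) : bb η s ≤ 1 := Real.smoothTransition.le_one _

/-- the slab around the disc -/
def slab (η d : ℝ) : Set E := {y | y 0 ^ 2 + y 1 ^ 2 ≤ 1 + 2 * η ∧ |y 2| ≤ 2 * d}

theorem slab_compact (η d : ℝ) : IsCompact (slab η d) := by
  have hcl : IsClosed (slab η d) := by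
    exact IsClosed.inter (isClosed_le (by fun_prop : Continuous fun y : E => y 0 ^ 2 + y 1 ^ 2) continuous_const)
      (isClosed_le (by fun_prop : Continuous fun y : E => |y 2|) continuous_const)
  refine (isCompact_closedBall (0 : E) (Real.sqrt (1 + 2 * η + 4 * d ^ 2))).of_isClosed_subset hcl fun y hy => ?_
  rw [mem_closedBall_zero_iff, EuclideanSpace.norm_eq]
  refine Real.sqrt_le_sqrt ?_
  rw [Fin.sum_univ_three]
  simp only [Real.norm_eq_abs, sq_abs]
  have h2 : y 2 ^ 2 ≤ 4 * d ^ 2 := by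
    rw [← sq_abs]
    nlinarith [abs_nonneg (y 2), hy.2]
  linarith [hy.1]

theorem norm_sq3 (y : E) : ‖y‖ ^ 2 = y 0 ^ 2 + y 1 ^ 2 + y 2 ^ 2 := by
  rw [EuclideanSpace.norm_sq_eq, Fin.sum_univ_three]
  simp [Real.norm_eq_abs, sq_abs]

/-- radial projection to the circle -/
theorem dist_circle {y : E} {a : ℝ} (ha : 0 < a) (ha1 : a ≤ 1) (h1 : |y 0 ^ 2 + y 1 ^ 2 - 1| ≤ a / 2) (h2 : |y 2| ≤ a / 2) :
    ∃ z : E, z 2 = 0 ∧ z 0 ^ 2 + z 1 ^ 2 = 1 ∧ dist y z < a := by
  set s : ℝ := y 0 ^ 2 + y 1 ^ 2 with hs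
  have hspos : 0 < s := by
    have := (abs_le.1 h1).1
    linarith
  set r : ℝ := Real.sqrt s with hr
  have hrpos : 0 < r := Real.sqrt_pos.2 hspos
  have hr2 : r ^ 2 = s := Real.sq_sqrt hspos.le
  refine ⟨!₂[y 0 / r, y 1 / r, 0], by simp, ?_, ?_⟩
  · simp only [Matrix.cons_val_zero, Matrix.cons_val_one]
    rw [div_pow, div_pow, ← add_div, hr2]
    exact div_self hspos.ne'
  · rw [dist_eq_norm]
    refine lt_of_pow_lt_pow_left₀ 2 ha.le ?_
    rw [norm_sq3]
    simp only [PiLp.sub_apply, Matrix.cons_val_zero, Matrix.cons_val_one, Matrix.cons_val]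
    have e : (y 0 - y 0 / r) ^ 2 + (y 1 - y 1 / r) ^ 2 + (y 2 - 0) ^ 2 = (r - 1) ^ 2 + y 2 ^ 2 := by
      have : (y 0 - y 0 / r) ^ 2 + (y 1 - y 1 / r) ^ 2 = (y 0 ^ 2 + y 1 ^ 2) * (1 - 1 / r) ^ 2 := by ring
      rw [this, ← hs, ← hr2]
      field_simp
      ring
    rw [e]
    have h3 : |r - 1| ≤ |s - 1| := by
      have : s - 1 = (r - 1) * (r + 1) := by rw [← hr2]; ring
      rw [this, abs_mul, abs_of_pos (by linarith : (0 : ℝ) < r + 1)]
      nlinarith [abs_nonneg (r - 1)]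
    have h4 : (r - 1) ^ 2 ≤ (a / 2) ^ 2 := by
      rw [← sq_abs]
      exact pow_le_pow_left₀ (abs_nonneg _) (h3.trans h1) 2
    have h5 : (y 2) ^ 2 ≤ (a / 2) ^ 2 := by
      rw [← sq_abs]
      exact pow_le_pow_left₀ (abs_nonneg _) h2 2
    nlinarith

open Classical in
/-- the bump around the disc in space -/
noncomputable def qq (Φ : OpenPartialHomeomorph E E) (η d : ℝ) (x : E) : ℝ :=
  if x ∈ Φ.target then bb η ((Φ.symm x) 0 ^ 2 + (Φ.symm x) 1 ^ 2) * bet ((Φ.symm x) 2 / d) else 0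

section
variable {Φ : OpenPartialHomeomorph E E} {η d : ℝ}

theorem qq_nonneg (x : E) : 0 ≤ qq Φ η d x := by
  unfold qq; split_ifs
  · exact mul_nonneg (bb_nonneg _ _) (bet_nonneg _)
  · exact le_rfl

theorem qq_le_one (x : E) : qq Φ η d x ≤ 1 := by
  unfold qq; split_ifs
  · exact mul_le_one₀ (bb_le_one _ _) (bet_nonneg _) (bet_le_one _)
  · exact zero_le_one

theorem qq_out (hη : 0 < η) (hd : 0 < d) {x : E} (hx : x ∉ Φ '' slab η d) : qq Φ η d x = 0 := by
  unfold qq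
  split_ifs with h
  · by_contra hne
    refine hx ⟨Φ.symm x, ⟨?_, ?_⟩, Φ.right_inv h⟩
    · by_contra h1
      exact hne (by rw [bb_zero hη (not_le.1 h1).le, zero_mul])
    · by_contra h1
      refine hne ?_
      rw [bet_zero, mul_zero]
      rw [abs_div, abs_of_pos hd, le_div_iff₀ hd]
      exact (not_le.1 h1).le
  · rfl

theorem slab_img_compact (hs : slab η d ⊆ Φ.source) : IsCompact (Φ '' slab η d) :=
  (slab_compact η d).image_of_continuousOn (Φ.continuousOn.mono hs)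

theorem qq_contDiff (hη : 0 < η) (hd : 0 < d) (hs : slab η d ⊆ Φ.source)
    (hsm : ContDiffOn ℝ ∞ Φ.symm Φ.target) : ContDiff ℝ ∞ (qq Φ η d) := by
  rw [contDiff_iff_contDiffAt]
  intro x
  by_cases hx : x ∈ Φ.target
  · have h1 : ContDiffAt ℝ ∞ Φ.symm x := hsm.contDiffAt (Φ.open_target.mem_nhds hx)
    have hk : ∀ k : Fin 3, ContDiffAt ℝ ∞ (fun z => (Φ.symm z) k) x := fun k =>
      (coord_contDiff k).contDiffAt.comp x h1
    have h2 : ContDiffAt ℝ ∞ (fun z => bb η ((Φ.symm z) 0 ^ 2 + (Φ.symm z) 1 ^ 2) * bet ((Φ.symm z) 2 / d)) x := by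
      refine ContDiffAt.mul ?_ ?_
      · exact (bb_contDiff η).contDiffAt.comp x (((hk 0).pow 2).add ((hk 1).pow 2))
      · exact bet_contDiff.contDiffAt.comp x ((hk 2).div_const d)
    refine h2.congr_of_eventuallyEq ?_
    filter_upwards [Φ.open_target.mem_nhds hx] with z hz
    simp only [qq, if_pos hz]
  · have hx' : x ∉ Φ '' slab η d := by
      rintro ⟨y, hy, rfl⟩
      exact hx (Φ.map_source (hs hy))
    have : qq Φ η d =ᶠ[𝓝 x] fun _ => 0 := by
      filter_upwards [(slab_img_compact hs).isClosed.isOpen_compl.mem_nhds hx'] with z hz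
      exact qq_out hη hd hz
    exact contDiffAt_const.congr_of_eventuallyEq this

theorem qq_tsupport (hη : 0 < η) (hd : 0 < d) (hs : slab η d ⊆ Φ.source) :
    tsupport (qq Φ η d) ⊆ Φ '' slab η d :=
  closure_minimal (fun x hx => by
    by_contra h
    exact hx (qq_out hη hd h)) (slab_img_compact hs).isClosed

theorem qq_compact (hη : 0 < η) (hd : 0 < d) (hs : slab η d ⊆ Φ.source) :
    HasCompactSupport (qq Φ η d) :=
  (slab_img_compact hs).of_isClosed_subset (isClosed_tsupport _) (qq_tsupport hη hd hs)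

theorem qq_one (hη : 0 < η) (hd : 0 < d) (hs : slab η d ⊆ Φ.source) :
    ∀ x ∈ Φ '' flatDisc, ∀ᶠ z in 𝓝 x, qq Φ η d z = 1 := by
  rintro x ⟨y, ⟨hy2, hy01⟩, rfl⟩
  have hyS : y ∈ slab η d := ⟨by linarith, by rw [hy2, abs_zero]; positivity⟩
  have hys : y ∈ Φ.source := hs hyS
  have hyt : Φ y ∈ Φ.target := Φ.map_source hys
  have hc : ContinuousAt Φ.symm (Φ y) := Φ.continuousAt_symm hyt
  have hk : ∀ k : Fin 3, ContinuousAt (fun z => (Φ.symm z) k) (Φ y) := fun k =>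
    (coord_contDiff k).continuous.continuousAt.comp hc
  have e1 : ∀ᶠ z in 𝓝 (Φ y), (Φ.symm z) 0 ^ 2 + (Φ.symm z) 1 ^ 2 < 1 + η := by
    have hc1 : ContinuousAt (fun z => (Φ.symm z) 0 ^ 2 + (Φ.symm z) 1 ^ 2) (Φ y) :=
      ((hk 0).pow 2).add ((hk 1).pow 2)
    have hv : (fun z => (Φ.symm z) 0 ^ 2 + (Φ.symm z) 1 ^ 2) (Φ y) < 1 + η := by
      simp only [Φ.left_inv hys]
      linarith
    exact hc1.eventually_lt_const hv
  have e2 : ∀ᶠ z in 𝓝 (Φ y), |(Φ.symm z) 2| < d := by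
    have hc1 : ContinuousAt (fun z => |(Φ.symm z) 2|) (Φ y) := (hk 2).abs
    have hv : (fun z => |(Φ.symm z) 2|) (Φ y) < d := by
      simp only [Φ.left_inv hys, hy2, abs_zero]
      exact hd
    exact hc1.eventually_lt_const hv
  filter_upwards [e1, e2, Φ.open_target.mem_nhds hyt] with z h1 h2 h3
  rw [qq, if_pos h3, bb_one hη h1.le, bet_one, one_mul]
  rw [abs_div, abs_of_pos hd, div_le_one hd]
  exact h2.le

/-- the derivative of the bump where the radial factor is constant -/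
theorem qq_fderiv {C : ℝ} (hC : ∀ s, |deriv bet s| ≤ C) (hη : 0 < η) (hd : 0 < d)
    (hsm : ContDiffOn ℝ ∞ Φ.symm Φ.target) {x : E} (hx : x ∈ Φ.target)
    (hx1 : (Φ.symm x) 0 ^ 2 + (Φ.symm x) 1 ^ 2 < 1 + η) (v : E) :
    |fderiv ℝ (qq Φ η d) x v| ≤ C / d * |fderiv ℝ (fun z => (Φ.symm z) 2) x v| := by
  have h1 : ContDiffAt ℝ ∞ Φ.symm x := hsm.contDiffAt (Φ.open_target.mem_nhds hx)
  have hk : ∀ k : Fin 3, ContDiffAt ℝ ∞ (fun z => (Φ.symm z) k) x := fun k =>
    (coord_contDiff k).contDiffAt.comp x h1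
  have he : qq Φ η d =ᶠ[𝓝 x] fun z => bet ((Φ.symm z) 2 / d) := by
    have e1 : ∀ᶠ z in 𝓝 x, (Φ.symm z) 0 ^ 2 + (Φ.symm z) 1 ^ 2 < 1 + η :=
      (((hk 0).continuousAt.pow 2).add ((hk 1).continuousAt.pow 2)).eventually_lt_const hx1
    filter_upwards [e1, Φ.open_target.mem_nhds hx] with z hz hzt
    rw [qq, if_pos hzt, bb_one hη hz.le, one_mul]
  rw [he.fderiv_eq]
  have hd2 : DifferentiableAt ℝ (fun z => (Φ.symm z) 2) x := (hk 2).differentiableAt (by simp)
  have h3 : HasFDerivAt (fun z => bet ((Φ.symm z) 2 / d))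
      (deriv bet ((Φ.symm x) 2 / d) • (d⁻¹ • fderiv ℝ (fun z => (Φ.symm z) 2) x)) x := by
    have h4 : HasFDerivAt (fun z => (Φ.symm z) 2 / d) (d⁻¹ • fderiv ℝ (fun z => (Φ.symm z) 2) x) x := by
      simpa only [div_eq_inv_mul] using hd2.hasFDerivAt.const_mul d⁻¹
    have h5 : HasDerivAt bet (deriv bet ((Φ.symm x) 2 / d)) ((Φ.symm x) 2 / d) :=
      (bet_contDiff.differentiable (by simp)).differentiableAt.hasDerivAt
    have h6 := h5.comp_hasFDerivAt x h4
    exact h6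
  rw [h3.fderiv]
  simp only [smul_apply, smul_eq_mul]
  rw [abs_mul, abs_mul, abs_of_pos (inv_pos.2 hd)]
  have := hC ((Φ.symm x) 2 / d)
  calc |deriv bet ((Φ.symm x) 2 / d)| * (d⁻¹ * |fderiv ℝ (fun z => (Φ.symm z) 2) x v|)
      ≤ C * (d⁻¹ * |fderiv ℝ (fun z => (Φ.symm z) 2) x v|) := by gcongr
    _ = _ := by rw [div_eq_mul_inv]; ring

end


/-- the edge circle -/
def circ : Set E := {y | y 2 = 0 ∧ y 0 ^ 2 + y 1 ^ 2 = 1}

theorem circ_compact : IsCompact circ := by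
  have hcl : IsClosed circ :=
    IsClosed.inter (isClosed_eq (by fun_prop : Continuous fun y : E => y 2) continuous_const)
      (isClosed_eq (by fun_prop : Continuous fun y : E => y 0 ^ 2 + y 1 ^ 2) continuous_const)
  refine (slab_compact 1 1).of_isClosed_subset hcl fun y hy => ?_
  exact ⟨by linarith [hy.2], by rw [hy.1, abs_zero]; norm_num⟩

theorem circ_sub : circ ⊆ flatDisc := fun _ hy => ⟨hy.1, hy.2.le⟩

theorem circ_nonempty : circ.Nonempty := ⟨!₂[1, 0, 0], by simp [circ]⟩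

theorem slab_sub {δ a η d : ℝ} (ha : 0 < a) (ha1 : a ≤ 1) (haδ : a ≤ δ) (hη : 2 * η ≤ a / 2) (hd : 2 * d ≤ a / 2) :
    slab η d ⊆ cthickening δ flatDisc := by
  intro y hy
  rcases le_or_gt (y 0 ^ 2 + y 1 ^ 2) 1 with h1 | h1
  · refine mem_cthickening_of_dist_le y !₂[y 0, y 1, 0] δ flatDisc ⟨by simp, by simpa using h1⟩ ?_
    rw [dist_eq_norm]
    refine le_of_sq_le_sq ?_ (by linarith)
    rw [norm_sq3]
    simp only [PiLp.sub_apply, Matrix.cons_val_zero, Matrix.cons_val_one, Matrix.cons_val]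
    have h2 : y 2 ^ 2 ≤ δ ^ 2 := by
      rw [← sq_abs (y 2)]
      exact pow_le_pow_left₀ (abs_nonneg _) (by linarith [hy.2]) 2
    nlinarith
  · obtain ⟨z, hz2, hz01, hz⟩ := dist_circle (y := y) ha ha1
      (by rw [abs_of_pos (by linarith)]; linarith [hy.1]) (by linarith [hy.2])
    exact mem_cthickening_of_dist_le y z δ flatDisc ⟨hz2, hz01.le⟩ (by linarith)

/-- the punctured slab over a smaller disc -/
def pslab (c d : ℝ) : Set E := {y | y 0 ^ 2 + y 1 ^ 2 ≤ c ∧ |y 2| < d ∧ y 2 ≠ 0}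

theorem pslab_img_meas {Φ : OpenPartialHomeomorph E E} {c d : ℝ} (hs : pslab c d ⊆ Φ.source) :
    MeasurableSet (Φ '' pslab c d) := by
  rw [Φ.image_eq_target_inter_inv_preimage hs]
  have hU1 : IsOpen {y : E | |y 2| < d ∧ y 2 ≠ 0} :=
    IsOpen.inter (isOpen_lt (by fun_prop : Continuous fun y : E => |y 2|) continuous_const)
      (isOpen_ne_fun (by fun_prop : Continuous fun y : E => y 2) continuous_const)
  have hU2 : IsOpen {y : E | c < y 0 ^ 2 + y 1 ^ 2} := isOpen_lt continuous_const (by fun_prop)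
  have o1 := Φ.symm.isOpen_inter_preimage hU1
  have o2 := Φ.symm.isOpen_inter_preimage hU2
  have h3 : Φ.target ∩ Φ.symm ⁻¹' pslab c d = (Φ.symm.source ∩ Φ.symm ⁻¹' {y : E | |y 2| < d ∧ y 2 ≠ 0}) \
      (Φ.symm.source ∩ Φ.symm ⁻¹' {y : E | c < y 0 ^ 2 + y 1 ^ 2}) := by
    ext x
    simp only [pslab, mem_inter_iff, mem_preimage, mem_ofPred_eq, Set.mem_sdiff, OpenPartialHomeomorph.symm_source,
      not_and, not_lt]
    tauto
  rw [h3]
  exact o1.measurableSet.diff o2.measurableSet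

theorem step0 {Ω S : Set E} {Φ : OpenPartialHomeomorph E E} {δ : ℝ} {h : E → ℝ} {D : Set E} (hΩ : IsOpen Ω)
    (hT : Tube Ω S Φ δ) (hW : WN Ω S h) (hSc : IsCompact S) (hS0 : volume S = 0)
    (hD : IsOpen D) (hFF : FF D (gr h) (Ω \ S)) {φ : E → ℝ} {K : Set E} {M : ℝ}
    (hφ : ContDiffOn ℝ ∞ φ (Ω \ S)) (hM : ∀ x, |φ x| ≤ M) (hgφ : MemLp (gr φ) 2 (volume.restrict Ω))
    (hK : IsCompact K) (hKΩ : K ⊆ Ω) (hφ0 : ∀ x ∈ Ω \ K, φ x = 0)
    {κ : E → ℝ} {K1 : ℝ≥0} (hκ : LipschitzWith K1 κ) (hκ01 : ∀ x, 0 ≤ κ x ∧ κ x ≤ 1)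
    (hκi : Integrable (fun x => ‖gr κ x‖ ^ 2)) {ε : ℝ} (hε : 0 < ε) (hκε : ∫ x, ‖gr κ x‖ ^ 2 ≤ ε)
    {C : ℝ} (hC0 : 0 ≤ C) (hC : ∀ s, |deriv bet s| ≤ C) {η d c : ℝ} (hη : 0 < η) (hd : 0 < d)
    (hsl : slab η d ⊆ Φ.source) (hc : c < 1) (hκc : ∀ y ∈ slab η d, κ (Φ y) ≠ 0 → y 0 ^ 2 + y 1 ^ 2 ≤ c) :
    |∫ x in D ∩ Ω, κ x * (1 - qq Φ η d x) * ⟪gr h x, gr φ x⟫|
      ≤ M * (Real.sqrt ε * ((∫ x in Ω, ‖gr h x‖ ^ 2) + 1) / 2) +
        M * (C / d * ∫ x in Φ '' pslab c (2 * d), |⟪gr h x, gr (fun z => (Φ.symm z) 2) x⟫|) := by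
  have hM0 : 0 ≤ M := (abs_nonneg _).trans (hM 0)
  set q : E → ℝ := qq Φ η d with hq
  have hqs : ContDiff ℝ ∞ q := qq_contDiff hη hd hsl hT.sms
  have hqc : HasCompactSupport q := qq_compact hη hd hsl
  obtain ⟨Kq, hKq⟩ := ContDiff.lipschitzWith_of_hasCompactSupport hqc hqs (by simp)
  have hOo : IsOpen (Ω \ S) := hΩ.sdiff hSc.isClosed
  have hC0c : IsCompact (K \ interior {x | q x = 1}) := hK.diff isOpen_interior
  have hC0s : K \ interior {x | q x = 1} ⊆ Ω \ S := by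
    intro x hx
    refine ⟨hKΩ hx.1, fun hxS => hx.2 ?_⟩
    rw [← hT.img] at hxS
    rw [mem_interior_iff_mem_nhds]
    exact qq_one hη hd hsl x hxS
  obtain ⟨θ, hθs, hθc, hθt, hθ1, hθ01⟩ := exists_cutoff hC0c hOo hC0s
  have hθφs : ContDiff ℝ ∞ (fun x => θ x * φ x) := by
    rw [contDiff_iff_contDiffAt]
    intro x
    by_cases hx : x ∈ Ω \ S
    · exact hθs.contDiffAt.mul (hφ.contDiffAt (hOo.mem_nhds hx))
    · have hx' : x ∉ tsupport θ := fun hh => hx (hθt hh)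
      have h0 : (fun x => θ x * φ x) =ᶠ[𝓝 x] fun _ => 0 := by
        filter_upwards [(isClosed_tsupport θ).isOpen_compl.mem_nhds hx'] with z hz
        rw [image_eq_zero_of_notMem_tsupport hz, zero_mul]
      exact contDiffAt_const.congr_of_eventuallyEq h0
  have hθφc : HasCompactSupport (fun x => θ x * φ x) := hθc.mul_right
  obtain ⟨Kθ, hKθ⟩ := ContDiff.lipschitzWith_of_hasCompactSupport hθφc hθφs (by simp)
  have h1qL : LipschitzWith Kq (fun x => 1 - q x) := by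
    refine LipschitzWith.of_dist_le_mul fun x y => ?_
    have := hKq.dist_le_mul x y
    rw [Real.dist_eq] at this ⊢
    rwa [show 1 - q x - (1 - q y) = -(q x - q y) by ring, abs_neg]
  have hq0 : ∀ x, 0 ≤ q x := fun x => qq_nonneg x
  have hq1 : ∀ x, q x ≤ 1 := fun x => qq_le_one x
  obtain ⟨K2, hK2⟩ := lip_mul (M1 := 1) (M2 := 1) hκ h1qL
    (fun x => by rw [abs_of_nonneg (hκ01 x).1]; exact (hκ01 x).2)
    (fun x => by rw [abs_of_nonneg (by linarith [hq1 x])]; linarith [hq0 x])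
  have hκq01 : ∀ x, 0 ≤ κ x * (1 - q x) ∧ κ x * (1 - q x) ≤ 1 := fun x =>
    ⟨mul_nonneg (hκ01 x).1 (by linarith [hq1 x]),
      mul_le_one₀ (hκ01 x).2 (by linarith [hq1 x]) (by linarith [hq0 x])⟩
  obtain ⟨K3, hK3⟩ := lip_mul (M1 := 1) (M2 := M) hK2 hKθ
    (fun x => by rw [abs_of_nonneg (hκq01 x).1]; exact (hκq01 x).2)
    (fun x => by
      rw [abs_mul, abs_of_nonneg (hθ01 x).1]
      exact (mul_le_of_le_one_left (abs_nonneg _) (hθ01 x).2).trans (hM x))
  set ψ : E → ℝ := fun x => κ x * (1 - q x) * (θ x * φ x) with hψ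
  have hψc : HasCompactSupport ψ := hθφc.mul_left
  have hψt : tsupport ψ ⊆ Ω \ S :=
    (tsupport_mul_subset_right.trans tsupport_mul_subset_left).trans hθt
  have hψeq : ∀ z ∈ Ω, ψ z = κ z * (1 - q z) * φ z := by
    intro z hz
    by_cases hzK : z ∈ K
    · by_cases hz1 : z ∈ interior {x | q x = 1}
      · have : z ∈ {x | q x = 1} := interior_subset hz1
        have : q z = 1 := this
        simp only [ψ, this, sub_self, mul_zero, zero_mul]
      · have : θ z = 1 := hθ1.self_of_nhdsSet z ⟨hzK, hz1⟩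
        simp only [ψ, this, one_mul]
    · simp only [ψ, hφ0 z ⟨hz, hzK⟩, mul_zero]
  -- continuity of the gradients
  have hgrh : ContinuousOn (gr h) (Ω \ S) := by
    have h1 : ContDiffOn ℝ ∞ (fderiv ℝ h) (Ω \ S) := hW.harm.1.fderiv_of_isOpen hOo (by simp)
    exact (InnerProductSpace.toDual ℝ E).symm.continuous.comp_continuousOn h1.continuousOn
  have hzero : ∫ y in D, ⟪gr h y, gr ψ y⟫ = 0 := ff_sum hgrh hFF hK3 hψc hψt
  have hTi : Integrable (fun y => fderiv ℝ ψ y (gr h y)) (volume : Measure E) := integ hgrh hK3 hψc hψt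
  have hzero' : ∫ y in D ∩ Ω, fderiv ℝ ψ y (gr h y) = 0 := by
    rw [← hzero]
    have h1 : ∫ y in D, ⟪gr h y, gr ψ y⟫ = ∫ y in D, fderiv ℝ ψ y (gr h y) := by
      congr 1; ext y; rw [inner_gr']
    rw [h1]
    symm
    refine setIntegral_eq_of_subset_of_forall_sdiff_eq_zero hD.measurableSet inter_subset_left ?_
    intro x hx
    have : x ∉ tsupport ψ := fun hh => hx.2 ⟨hx.1, (hψt hh).1⟩
    rw [fderiv_out this]; simp
  -- integrability
  have hDΩm : MeasurableSet (D ∩ Ω) := hD.measurableSet.inter hΩ.measurableSet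
  have hA : Integrable (fun x => ‖gr h x‖ ^ 2) (volume.restrict Ω) :=
    (memLp_two_iff_integrable_sq_norm hW.g2.1).1 hW.g2
  have hB : Integrable (fun x => ‖gr φ x‖ ^ 2) (volume.restrict Ω) :=
    (memLp_two_iff_integrable_sq_norm hgφ.1).1 hgφ
  have hG : Integrable (fun x => ⟪gr h x, gr φ x⟫) (volume.restrict Ω) := by
    refine ((hA.add hB).div_const 2).mono' (hW.g2.1.inner hgφ.1) (Eventually.of_forall fun x => ?_)
    have h1 := norm_inner_le_norm (𝕜 := ℝ) (gr h x) (gr φ x)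
    simp only [Pi.add_apply]
    nlinarith [sq_nonneg (‖gr h x‖ - ‖gr φ x‖)]
  have hf1 : Integrable (fun x => κ x * (1 - q x) * ⟪gr h x, gr φ x⟫) (volume.restrict Ω) := by
    refine hG.bdd_mul (c := 1) ?_ (Eventually.of_forall fun x => ?_)
    · exact (hK2.continuous).aestronglyMeasurable
    · rw [Real.norm_eq_abs, abs_of_nonneg (hκq01 x).1]; exact (hκq01 x).2
  have hsub : volume.restrict (D ∩ Ω) ≤ volume.restrict Ω := Measure.restrict_mono inter_subset_right le_rfl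
  -- the region
  have hpsl : pslab c (2 * d) ⊆ Φ.source := by
    intro y hy
    exact hsl ⟨by linarith [hy.1], hy.2.1.le⟩
  have hRm : MeasurableSet (Φ '' pslab c (2 * d)) := pslab_img_meas hpsl
  set R : Set E := Φ '' pslab c (2 * d) with hR
  set W : E → ℝ := fun x => |⟪gr h x, gr (fun z => (Φ.symm z) 2) x⟫| with hWdef
  have hRΩ : R ⊆ Ω \ S := by
    rintro x ⟨y, hy, rfl⟩
    refine ⟨hT.tgt (Φ.map_source (hpsl hy)), fun hS => ?_⟩
    rw [← hT.img] at hS
    obtain ⟨z, hz, hzy⟩ := hS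
    have hzs : z ∈ Φ.source := hT.src (self_subset_cthickening _ hz)
    have : z = y := Φ.injOn hzs (hpsl hy) hzy
    rw [this] at hz
    exact hy.2.2 hz.1
  have hWi : IntegrableOn W R := by
    have htsm : ContDiffOn ℝ ∞ (fun z => (Φ.symm z) 2) Φ.target :=
      (coord_contDiff 2).comp_contDiffOn hT.sms
    have hgt : ContinuousOn (gr (fun z => (Φ.symm z) 2)) Φ.target := by
      have h1 := htsm.fderiv_of_isOpen (m := ∞) Φ.open_target (by simp)
      exact (InnerProductSpace.toDual ℝ E).symm.continuous.comp_continuousOn h1.continuousOn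
    obtain ⟨Ct, hCt⟩ := (slab_img_compact hsl).exists_bound_of_continuousOn
      (hgt.mono (by rintro x ⟨y, hy, rfl⟩; exact Φ.map_source (hsl hy)))
    have hRslab : R ⊆ Φ '' slab η d := image_mono fun y hy => ⟨by linarith [hy.1], hy.2.1.le⟩
    have hRt : R ⊆ Φ.target := by rintro x ⟨y, hy, rfl⟩; exact Φ.map_source (hpsl hy)
    have hRfin : volume R < ⊤ := (measure_mono hRslab).trans_lt (slab_img_compact hsl).measure_lt_top
    have hA' : IntegrableOn (fun x => ‖gr h x‖ ^ 2) R := hA.mono_measure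
      (Measure.restrict_mono (fun x hx => (hRΩ hx).1) le_rfl)
    have hconst : IntegrableOn (fun _ : E => (1 : ℝ)) R := integrableOn_const hRfin.ne (by simp)
    have hdom : IntegrableOn (fun x => Ct * (1 + ‖gr h x‖ ^ 2)) R := (hconst.add hA').const_mul Ct
    refine hdom.mono' ?_ ((ae_restrict_iff' hRm).2 (Eventually.of_forall fun x hx => ?_))
    · have h1 : AEStronglyMeasurable (gr h) (volume.restrict R) :=
        (hgrh.mono hRΩ).aestronglyMeasurable hRm
      have h2 : AEStronglyMeasurable (gr (fun z => (Φ.symm z) 2)) (volume.restrict R) :=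
        (hgt.mono hRt).aestronglyMeasurable hRm
      have h3 := AEStronglyMeasurable.inner (𝕜 := ℝ) h1 h2
      exact h3.norm
    · simp only [W, Real.norm_eq_abs, abs_abs]
      have h1 := norm_inner_le_norm (𝕜 := ℝ) (gr h x) (gr (fun z => (Φ.symm z) 2) x)
      rw [Real.norm_eq_abs] at h1
      have h2 := hCt x (hRslab hx)
      have h3 : 0 ≤ Ct := (norm_nonneg _).trans h2
      refine h1.trans ?_
      calc ‖gr h x‖ * ‖gr (fun z => (Φ.symm z) 2) x‖ ≤ (1 + ‖gr h x‖ ^ 2) * Ct := by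
            gcongr
            nlinarith [sq_nonneg (‖gr h x‖ - 1)]
        _ = _ := by ring
  -- the pointwise bound
  have hse : 0 < Real.sqrt ε := Real.sqrt_pos.2 hε
  set bd : E → ℝ := fun x => M * ((Real.sqrt ε * ‖gr h x‖ ^ 2 + (Real.sqrt ε)⁻¹ * ‖gr κ x‖ ^ 2) / 2) +
    M * (C / d * R.indicator W x) with hbd
  have hSae : ∀ᵐ x ∂(volume : Measure E), x ∉ S := by
    rw [ae_iff]; simpa only [not_not, ofPred_mem_eq] using hS0
  have hae : ∀ᵐ x ∂(volume.restrict (D ∩ Ω)),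
      |fderiv ℝ ψ x (gr h x) - κ x * (1 - q x) * ⟪gr h x, gr φ x⟫| ≤ bd x := by
    refine (ae_restrict_iff' hDΩm).2 ?_
    filter_upwards [hSae, hκ.ae_differentiableAt (μ := (volume : Measure E))] with x hxS hκd hxD
    have hxO : x ∈ Ω \ S := ⟨hxD.2, hxS⟩
    have hφd : DifferentiableAt ℝ φ x := (hφ.contDiffAt (hOo.mem_nhds hxO)).differentiableAt (by simp)
    have hqd : DifferentiableAt ℝ q x := (hqs.differentiable (by simp)).differentiableAt
    have he : ψ =ᶠ[𝓝 x] fun z => κ z * (1 - q z) * φ z := by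
      filter_upwards [hΩ.mem_nhds hxD.2] with z hz
      exact hψeq z hz
    have hfd : fderiv ℝ ψ x (gr h x) = κ x * (1 - q x) * fderiv ℝ φ x (gr h x) +
        φ x * (κ x * (- fderiv ℝ q x (gr h x)) + (1 - q x) * fderiv ℝ κ x (gr h x)) := by
      rw [he.fderiv_eq]
      have h1 : HasFDerivAt (fun z => κ z * (1 - q z) * φ z) _ x :=
        (hκd.hasFDerivAt.mul ((hasFDerivAt_const (1 : ℝ) x).sub hqd.hasFDerivAt)).mul hφd.hasFDerivAt
      rw [h1.fderiv]
      simp only [add_apply, smul_apply, smul_eq_mul, sub_apply, zero_apply, Pi.mul_apply, Pi.sub_apply]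
      ring
    have hterm1 : |φ x * ((1 - q x) * fderiv ℝ κ x (gr h x))|
        ≤ M * ((Real.sqrt ε * ‖gr h x‖ ^ 2 + (Real.sqrt ε)⁻¹ * ‖gr κ x‖ ^ 2) / 2) := by
      rw [abs_mul, abs_mul, abs_of_nonneg (by linarith [hq1 x] : (0 : ℝ) ≤ 1 - q x)]
      have h1 : |fderiv ℝ κ x (gr h x)| ≤ (Real.sqrt ε * ‖gr h x‖ ^ 2 + (Real.sqrt ε)⁻¹ * ‖gr κ x‖ ^ 2) / 2 := by
        rw [← inner_gr κ x (gr h x)]
        have h2 := norm_inner_le_norm (𝕜 := ℝ) (gr κ x) (gr h x)
        rw [Real.norm_eq_abs] at h2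
        refine h2.trans ?_
        have h3 : (Real.sqrt ε)⁻¹ * (Real.sqrt ε * ‖gr h x‖ - ‖gr κ x‖) ^ 2
            = Real.sqrt ε * ‖gr h x‖ ^ 2 + (Real.sqrt ε)⁻¹ * ‖gr κ x‖ ^ 2 - 2 * (‖gr κ x‖ * ‖gr h x‖) := by
          field_simp
          ring
        have h4 : 0 ≤ (Real.sqrt ε)⁻¹ * (Real.sqrt ε * ‖gr h x‖ - ‖gr κ x‖) ^ 2 := by positivity
        linarith
      have h5 : (1 - q x) * |fderiv ℝ κ x (gr h x)| ≤ |fderiv ℝ κ x (gr h x)| :=
        mul_le_of_le_one_left (abs_nonneg _) (by linarith [hq0 x])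
      exact mul_le_mul (hM x) (h5.trans h1) (mul_nonneg (by linarith [hq1 x]) (abs_nonneg _)) hM0
    have hterm2 : |φ x * (κ x * fderiv ℝ q x (gr h x))| ≤ M * (C / d * R.indicator W x) := by
      have hInd : 0 ≤ R.indicator W x := indicator_nonneg (fun z _ => abs_nonneg _) x
      have hRHS : 0 ≤ M * (C / d * R.indicator W x) := by positivity
      by_cases hκ0 : κ x = 0
      · rw [hκ0, zero_mul, mul_zero, abs_zero]; exact hRHS
      by_cases hq00 : q x = 0
      · have : fderiv ℝ q x = 0 := by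
          refine IsLocalMin.fderiv_eq_zero ?_
          exact Eventually.of_forall fun z => by rw [hq00]; exact hq0 z
        rw [this]
        simp only [zero_apply, mul_zero, abs_zero]
        exact hRHS
      have hxsl : x ∈ Φ '' slab η d := by
        by_contra hh
        exact hq00 (qq_out hη hd hh)
      obtain ⟨y, hy, rfl⟩ := hxsl
      have hys : y ∈ Φ.source := hsl hy
      have hyc : y 0 ^ 2 + y 1 ^ 2 ≤ c := hκc y hy hκ0
      have hy2 : |y 2| < 2 * d := by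
        by_contra hh
        refine hq00 ?_
        simp only [q, qq]
        rw [if_pos (Φ.map_source hys), Φ.left_inv hys, bet_zero, mul_zero]
        rw [abs_div, abs_of_pos hd, le_div_iff₀ hd]
        exact not_lt.1 hh
      have hy20 : y 2 ≠ 0 := by
        intro hh
        refine hxS ?_
        rw [← hT.img]
        exact ⟨y, ⟨hh, by linarith⟩, rfl⟩
      have hxR : Φ y ∈ R := ⟨y, ⟨hyc, hy2, hy20⟩, rfl⟩
      rw [indicator_of_mem hxR]
      have h1 := qq_fderiv (d := d) hC hη hd hT.sms (Φ.map_source hys)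
        (by rw [Φ.left_inv hys]; linarith) (gr h (Φ y))
      have h2 : |fderiv ℝ (fun z => (Φ.symm z) 2) (Φ y) (gr h (Φ y))| = W (Φ y) := by
        simp only [W]
        rw [inner_gr']
      rw [h2] at h1
      rw [abs_mul, abs_mul, abs_of_nonneg (hκ01 _).1]
      have h3 : κ (Φ y) * |fderiv ℝ q (Φ y) (gr h (Φ y))| ≤ C / d * W (Φ y) :=
        (mul_le_of_le_one_left (abs_nonneg _) (hκ01 _).2).trans h1
      exact mul_le_mul (hM _) h3 (mul_nonneg (hκ01 _).1 (abs_nonneg _)) hM0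
    rw [hfd, inner_gr']
    have h6 : κ x * (1 - q x) * fderiv ℝ φ x (gr h x) +
        φ x * (κ x * (- fderiv ℝ q x (gr h x)) + (1 - q x) * fderiv ℝ κ x (gr h x)) -
        κ x * (1 - q x) * fderiv ℝ φ x (gr h x)
        = φ x * ((1 - q x) * fderiv ℝ κ x (gr h x)) - φ x * (κ x * fderiv ℝ q x (gr h x)) := by ring
    rw [h6]
    exact (abs_sub _ _).trans (add_le_add hterm1 hterm2)
  -- integrate
  have hbi1 : Integrable (fun x => M * ((Real.sqrt ε * ‖gr h x‖ ^ 2 + (Real.sqrt ε)⁻¹ * ‖gr κ x‖ ^ 2) / 2))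
      (volume.restrict (D ∩ Ω)) :=
    ((((hA.mono_measure hsub).const_mul _).add (hκi.integrableOn.const_mul _)).div_const 2).const_mul M
  have hbi2 : Integrable (fun x => M * (C / d * R.indicator W x)) (volume.restrict (D ∩ Ω)) :=
    (((integrable_indicator_iff hRm).2 hWi).integrableOn.const_mul _).const_mul M
  have hbi : Integrable bd (volume.restrict (D ∩ Ω)) := hbi1.add hbi2
  have hf1' := hf1.mono_measure hsub
  have hTi' : Integrable (fun y => fderiv ℝ ψ y (gr h y)) (volume.restrict (D ∩ Ω)) := hTi.integrableOn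
  calc |∫ x in D ∩ Ω, κ x * (1 - q x) * ⟪gr h x, gr φ x⟫|
      = |∫ x in D ∩ Ω, (fderiv ℝ ψ x (gr h x) - κ x * (1 - q x) * ⟪gr h x, gr φ x⟫)| := by
        rw [integral_sub hTi' hf1', hzero', zero_sub, abs_neg]
    _ ≤ ∫ x in D ∩ Ω, bd x := by
        rw [← Real.norm_eq_abs]
        exact norm_integral_le_of_norm_le hbi hae
    _ = (∫ x in D ∩ Ω, M * ((Real.sqrt ε * ‖gr h x‖ ^ 2 + (Real.sqrt ε)⁻¹ * ‖gr κ x‖ ^ 2) / 2)) +
        ∫ x in D ∩ Ω, M * (C / d * R.indicator W x) := integral_add hbi1 hbi2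
    _ ≤ _ := by
        refine add_le_add ?_ ?_
        · rw [integral_const_mul, integral_div, integral_add ((hA.mono_measure hsub).const_mul _)
            (hκi.integrableOn.const_mul _), integral_const_mul, integral_const_mul]
          have h1 : ∫ x in D ∩ Ω, ‖gr h x‖ ^ 2 ≤ ∫ x in Ω, ‖gr h x‖ ^ 2 :=
            setIntegral_mono_set hA (Eventually.of_forall fun x => sq_nonneg _)
              (LE.le.eventuallyLE inter_subset_right)
          have h2 : ∫ x in D ∩ Ω, ‖gr κ x‖ ^ 2 ≤ ε :=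
            (setIntegral_le_integral hκi (Eventually.of_forall fun x => sq_nonneg _)).trans hκε
          have h3 : (Real.sqrt ε)⁻¹ * ε = Real.sqrt ε := by
            rw [inv_mul_eq_div, Real.div_sqrt]
          calc M * (((Real.sqrt ε * ∫ x in D ∩ Ω, ‖gr h x‖ ^ 2) + (Real.sqrt ε)⁻¹ * ∫ x in D ∩ Ω, ‖gr κ x‖ ^ 2) / 2)
              ≤ M * (((Real.sqrt ε * ∫ x in Ω, ‖gr h x‖ ^ 2) + (Real.sqrt ε)⁻¹ * ε) / 2) := by gcongr
            _ = M * (Real.sqrt ε * ((∫ x in Ω, ‖gr h x‖ ^ 2) + 1) / 2) := by rw [h3]; ring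
        · rw [integral_const_mul, integral_const_mul]
          have h1 : ∫ x in D ∩ Ω, R.indicator W x ≤ ∫ x in R, W x := by
            rw [← integral_indicator hRm]
            exact setIntegral_le_integral ((integrable_indicator_iff hRm).2 hWi)
              (Eventually.of_forall fun x => indicator_nonneg (fun z _ => abs_nonneg _) x)
          gcongr


theorem step1 (hFCE : T_FCE) {Ω S : Set E} {Φ : OpenPartialHomeomorph E E} {δ : ℝ} {h : E → ℝ} {D : Set E}
    (hΩ : IsOpen Ω) (hΩb : Bornology.IsBounded Ω)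
    (hT : Tube Ω S Φ δ) (hW : WN Ω S h) (hSc : IsCompact S) (hS0 : volume S = 0)
    (hD : IsOpen D) (hFF : FF D (gr h) (Ω \ S)) {φ : E → ℝ} {K : Set E} {M : ℝ}
    (hφ : ContDiffOn ℝ ∞ φ (Ω \ S)) (hM : ∀ x, |φ x| ≤ M) (hgφ : MemLp (gr φ) 2 (volume.restrict Ω))
    (hK : IsCompact K) (hKΩ : K ⊆ Ω) (hφ0 : ∀ x ∈ Ω \ K, φ x = 0)
    (hG : Integrable (fun x => ⟪gr h x, gr φ x⟫) (volume.restrict Ω))
    {κ : E → ℝ} {K1 : ℝ≥0} (hκ : LipschitzWith K1 κ) (hκ01 : ∀ x, 0 ≤ κ x ∧ κ x ≤ 1)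
    (hκi : Integrable (fun x => ‖gr κ x‖ ^ 2)) {ε : ℝ} (hε : 0 < ε) (hκε : ∫ x, ‖gr κ x‖ ^ 2 ≤ ε)
    {η0 : ℝ} (hη0 : 0 < η0) (hκZ : ∀ x, infDist x (Φ '' circ) < η0 → κ x = 0) :
    |∫ x in D ∩ Ω, κ x * ⟪gr h x, gr φ x⟫|
      ≤ M * (Real.sqrt ε * ((∫ x in Ω, ‖gr h x‖ ^ 2) + 1) / 2) := by
  have hM0 : 0 ≤ M := (abs_nonneg _).trans (hM 0)
  obtain ⟨C, hC0, hC⟩ := bet_deriv_bound
  have hflat : flatDisc ⊆ Φ.source := (self_subset_cthickening _).trans hT.src
  -- the neighbourhood of the circle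
  have hNo : IsOpen {x : E | infDist x (Φ '' circ) < η0} := isOpen_lt (continuous_infDist_pt _) continuous_const
  have hUo := Φ.isOpen_inter_preimage hNo
  have hcU : circ ⊆ Φ.source ∩ Φ ⁻¹' {x : E | infDist x (Φ '' circ) < η0} := by
    intro y hy
    refine ⟨hflat (circ_sub hy), ?_⟩
    have : infDist (Φ y) (Φ '' circ) = 0 := infDist_zero_of_mem (mem_image_of_mem _ hy)
    simp only [mem_preimage, mem_ofPred_eq, this]
    exact hη0
  obtain ⟨ε1, hε1, hthick⟩ := circ_compact.exists_thickening_subset_open hUo hcU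
  set a : ℝ := min (min ε1 1) δ with ha
  have ha0 : 0 < a := lt_min (lt_min hε1 one_pos) hT.pos
  have ha1 : a ≤ 1 := (min_le_left _ _).trans (min_le_right _ _)
  have haε : a ≤ ε1 := (min_le_left _ _).trans (min_le_left _ _)
  have haδ : a ≤ δ := min_le_right _ _
  set η : ℝ := a / 8 with hη
  have hη0' : 0 < η := by positivity
  have hsl : ∀ d, 0 < d → d ≤ a / 8 → slab η d ⊆ Φ.source := fun d _ hd =>
    (slab_sub ha0 ha1 haδ (by rw [hη]; linarith) (by linarith)).trans hT.src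
  have hκc : ∀ d, 0 < d → d ≤ a / 8 → ∀ y ∈ slab η d, κ (Φ y) ≠ 0 → y 0 ^ 2 + y 1 ^ 2 ≤ 1 - a / 4 := by
    intro d hd0 hd y hy hne
    by_contra hcon
    push Not at hcon
    obtain ⟨z, hz2, hz01, hz⟩ := dist_circle (y := y) ha0 ha1
      (by rw [abs_le]; constructor
          · linarith
          · have := hy.1; rw [hη] at this; linarith) (by linarith [hy.2])
    have hyt : y ∈ thickening ε1 circ := mem_thickening_iff.2 ⟨z, ⟨hz2, hz01⟩, by linarith⟩
    exact hne (hκZ _ (hthick hyt).2)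
  have hc1 : 1 - a / 4 < 1 := by linarith
  -- bounds for small d
  have hev : ∀ᶠ d in 𝓝[>] (0 : ℝ), d ≤ a / 8 := by
    have : ∀ᶠ d in 𝓝 (0 : ℝ), d < a / 8 := eventually_lt_nhds (by positivity)
    filter_upwards [nhdsWithin_le_nhds this] with d hd using hd.le
  have hbound : ∀ᶠ d in 𝓝[>] (0 : ℝ), |∫ x in D ∩ Ω, κ x * (1 - qq Φ η d x) * ⟪gr h x, gr φ x⟫|
      ≤ M * (Real.sqrt ε * ((∫ x in Ω, ‖gr h x‖ ^ 2) + 1) / 2) +
        M * (2 * C * ((2 * d)⁻¹ * ∫ x in Φ '' {y | y 0 ^ 2 + y 1 ^ 2 ≤ 1 - a / 4 ∧ |y 2| < 2 * d ∧ y 2 ≠ 0},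
          |⟪gr h x, gr (fun z => (Φ.symm z) 2) x⟫|)) := by
    filter_upwards [hev, self_mem_nhdsWithin] with d hd hd0
    have hd0' : 0 < d := hd0
    have := step0 hΩ hT hW hSc hS0 hD hFF hφ hM hgφ hK hKΩ hφ0 hκ hκ01 hκi hε hκε hC0 hC hη0' hd0'
      (hsl d hd0' hd) hc1 (hκc d hd0' hd)
    refine this.trans (le_of_eq ?_)
    have e1 : C / d = 2 * C * (2 * d)⁻¹ := by field_simp
    rw [e1, mul_assoc (2 * C)]
    rfl
  have hlimR : Tendsto (fun d : ℝ => M * (Real.sqrt ε * ((∫ x in Ω, ‖gr h x‖ ^ 2) + 1) / 2) +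
        M * (2 * C * ((2 * d)⁻¹ * ∫ x in Φ '' {y | y 0 ^ 2 + y 1 ^ 2 ≤ 1 - a / 4 ∧ |y 2| < 2 * d ∧ y 2 ≠ 0},
          |⟪gr h x, gr (fun z => (Φ.symm z) 2) x⟫|))) (𝓝[>] 0)
      (𝓝 (M * (Real.sqrt ε * ((∫ x in Ω, ‖gr h x‖ ^ 2) + 1) / 2) + M * (2 * C * 0))) := by
    have h1 := hFCE Ω S Φ δ h (1 - a / 4) hΩ hΩb hT hW hc1
    have h2 : Tendsto (fun d : ℝ => 2 * d) (𝓝[>] 0) (𝓝[>] 0) := by
      refine tendsto_nhdsWithin_iff.2 ⟨two_mul_tendsto, ?_⟩
      filter_upwards [self_mem_nhdsWithin] with d hd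
      have : (0 : ℝ) < d := hd
      simp only [mem_Ioi]; linarith
    exact (((h1.comp h2).const_mul (2 * C)).const_mul M).const_add _
  rw [mul_zero, mul_zero, add_zero] at hlimR
  -- the limit of the left hand side
  have hlimL : Tendsto (fun d : ℝ => ∫ x in D ∩ Ω, κ x * (1 - qq Φ η d x) * ⟪gr h x, gr φ x⟫) (𝓝[>] 0)
      (𝓝 (∫ x in D ∩ Ω, κ x * ⟪gr h x, gr φ x⟫)) := by
    have hDΩm : MeasurableSet (D ∩ Ω) := hD.measurableSet.inter hΩ.measurableSet
    have hsub : volume.restrict (D ∩ Ω) ≤ volume.restrict Ω := Measure.restrict_mono inter_subset_right le_rfl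
    have hG' := hG.mono_measure hsub
    have hSae : ∀ᵐ x ∂(volume : Measure E), x ∉ S := by
      rw [ae_iff]; simpa only [not_not, ofPred_mem_eq] using hS0
    refine tendsto_integral_filter_of_dominated_convergence (fun x => |⟪gr h x, gr φ x⟫|) ?_ ?_ hG'.norm ?_
    · filter_upwards [hev, self_mem_nhdsWithin] with d hd hd0
      have hd0' : 0 < d := hd0
      have hc : Continuous fun x => κ x * (1 - qq Φ η d x) :=
        hκ.continuous.mul (continuous_const.sub (qq_contDiff hη0' hd0' (hsl d hd0' hd) hT.sms).continuous)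
      exact hc.aestronglyMeasurable.mul hG'.1
    · refine Eventually.of_forall fun d => Eventually.of_forall fun x => ?_
      rw [norm_mul, Real.norm_eq_abs, Real.norm_eq_abs]
      refine mul_le_of_le_one_left (abs_nonneg _) ?_
      rw [abs_of_nonneg (mul_nonneg (hκ01 x).1 (by linarith [qq_le_one (Φ := Φ) (η := η) (d := d) x]))]
      exact mul_le_one₀ (hκ01 x).2 (by linarith [qq_le_one (Φ := Φ) (η := η) (d := d) x])
        (by linarith [qq_nonneg (Φ := Φ) (η := η) (d := d) x])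
    · refine (ae_restrict_iff' hDΩm).2 ?_
      filter_upwards [hSae] with x hxS hx
      refine (tendsto_congr' ?_).2 tendsto_const_nhds
      by_cases hκ0 : κ x = 0
      · exact Eventually.of_forall fun d => by simp only [hκ0, zero_mul]
      by_cases hxsl : x ∈ Φ '' slab η (a / 8)
      · obtain ⟨y, hy, rfl⟩ := hxsl
        have hys : y ∈ Φ.source := hsl (a / 8) (by positivity) le_rfl hy
        have hyc := hκc (a / 8) (by positivity) le_rfl y hy hκ0
        have hy2 : y 2 ≠ 0 := by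
          intro hh
          refine hxS ?_
          rw [← hT.img]
          exact ⟨y, ⟨hh, by linarith⟩, rfl⟩
        have hev2 : ∀ᶠ d in 𝓝[>] (0 : ℝ), 2 * d < |y 2| :=
          two_mul_tendsto.eventually_lt_const (abs_pos.2 hy2)
        filter_upwards [hev2, self_mem_nhdsWithin] with d hd hd0
        have hd0' : 0 < d := hd0
        have : qq Φ η d (Φ y) = 0 := by
          rw [qq, if_pos (Φ.map_source hys), Φ.left_inv hys, bet_zero, mul_zero]
          rw [abs_div, abs_of_pos hd0', le_div_iff₀ hd0']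
          exact hd.le
        rw [this, sub_zero, mul_one]
      · filter_upwards [hev, self_mem_nhdsWithin] with d hd hd0
        have hd0' : 0 < d := hd0
        have : x ∉ Φ '' slab η d := fun hh =>
          hxsl (image_mono (show slab η d ⊆ slab η (a / 8) from fun y hy => ⟨hy.1, by linarith [hy.2]⟩) hh)
        rw [qq_out hη0' hd0' this, sub_zero, mul_one]
  exact le_of_tendsto_of_tendsto hlimL.abs hlimR hbound

/-- no flux out of flux free sets -/
theorem fm0 (hFCE : T_FCE) (hEDG : T_EDG) (hTBV : T_TBV) (hNLS : T_NLS) : T_FM0 := by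
  intro Ω S Φ δ h D hΩ hΩb hT hW hD hFF φ K hφ hMex hgφ hK hKΩ hφ0
  obtain ⟨M, hM⟩ := hMex
  obtain ⟨hS0, hSc, hSΩ⟩ := (hNLS Ω S).2 Φ δ hT
  have hM0 : 0 ≤ M := (abs_nonneg _).trans (hM 0)
  have hflat : flatDisc ⊆ Φ.source := (self_subset_cthickening _).trans hT.src
  have hZc : IsCompact (Φ '' circ) :=
    circ_compact.image_of_continuousOn (Φ.continuousOn.mono (circ_sub.trans hflat))
  have hZn : (Φ '' circ).Nonempty := circ_nonempty.image _
  obtain ⟨C, hC⟩ := hTBV Ω S Φ δ hT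
  have hA : Integrable (fun x => ‖gr h x‖ ^ 2) (volume.restrict Ω) :=
    (memLp_two_iff_integrable_sq_norm hW.g2.1).1 hW.g2
  have hB : Integrable (fun x => ‖gr φ x‖ ^ 2) (volume.restrict Ω) :=
    (memLp_two_iff_integrable_sq_norm hgφ.1).1 hgφ
  have hG : Integrable (fun x => ⟪gr h x, gr φ x⟫) (volume.restrict Ω) := by
    refine ((hA.add hB).div_const 2).mono' (hW.g2.1.inner hgφ.1) (Eventually.of_forall fun x => ?_)
    have h1 := norm_inner_le_norm (𝕜 := ℝ) (gr h x) (gr φ x)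
    simp only [Pi.add_apply]
    nlinarith [sq_nonneg (‖gr h x‖ - ‖gr φ x‖)]
  set e : ℕ → ℝ := fun n => 1 / ((n : ℝ) + 1) with he
  have he0 : ∀ n, 0 < e n := fun n => Nat.one_div_pos_of_nat
  choose κ hκL hκ01 hκZ hκ1 hκi hκe using fun n => hEDG (Φ '' circ) C hZc hZn hC (e n) (he0 n)
  have hb : ∀ n, |∫ x in D ∩ Ω, κ n x * ⟪gr h x, gr φ x⟫|
      ≤ M * (Real.sqrt (e n) * ((∫ x in Ω, ‖gr h x‖ ^ 2) + 1) / 2) := by
    intro n
    obtain ⟨K1, hK1⟩ := hκL n
    obtain ⟨η0, hη0, hκη⟩ := hκZ n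
    exact step1 hFCE hΩ hΩb hT hW hSc hS0 hD hFF hφ hM hgφ hK hKΩ hφ0 hG hK1 (hκ01 n) (hκi n) (he0 n) (hκe n)
      hη0 hκη
  have hlim1 : Tendsto (fun n => M * (Real.sqrt (e n) * ((∫ x in Ω, ‖gr h x‖ ^ 2) + 1) / 2)) atTop
      (𝓝 (M * (Real.sqrt 0 * ((∫ x in Ω, ‖gr h x‖ ^ 2) + 1) / 2))) := by
    have h1 : Tendsto e atTop (𝓝 0) := tendsto_one_div_add_atTop_nhds_zero_nat
    exact ((((Real.continuous_sqrt.tendsto 0).comp h1).mul_const _).div_const 2).const_mul M
  rw [Real.sqrt_zero, zero_mul, zero_div, mul_zero] at hlim1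
  have hlim2 : Tendsto (fun n => ∫ x in D ∩ Ω, κ n x * ⟪gr h x, gr φ x⟫) atTop
      (𝓝 (∫ x in D ∩ Ω, ⟪gr h x, gr φ x⟫)) := by
    have hsub : volume.restrict (D ∩ Ω) ≤ volume.restrict Ω := Measure.restrict_mono inter_subset_right le_rfl
    have hG' := hG.mono_measure hsub
    have hSae : ∀ᵐ x ∂(volume : Measure E), x ∉ S := by
      rw [ae_iff]; simpa only [not_not, ofPred_mem_eq] using hS0
    refine tendsto_integral_of_dominated_convergence (fun x => |⟪gr h x, gr φ x⟫|) ?_ hG'.norm ?_ ?_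
    · intro n
      obtain ⟨K1, hK1⟩ := hκL n
      exact hK1.continuous.aestronglyMeasurable.mul hG'.1
    · refine fun n => Eventually.of_forall fun x => ?_
      rw [norm_mul, Real.norm_eq_abs, Real.norm_eq_abs]
      refine mul_le_of_le_one_left (abs_nonneg _) ?_
      rw [abs_of_nonneg (hκ01 n x).1]
      exact (hκ01 n x).2
    · refine ae_restrict_of_ae ?_
      filter_upwards [hSae] with x hxS
      have hxZ : x ∉ Φ '' circ := fun hh => hxS (by rw [← hT.img]; exact image_mono circ_sub hh)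
      have hpos : 0 < infDist x (Φ '' circ) := by
        rcases (infDist_nonneg (x := x) (s := Φ '' circ)).lt_or_eq with h1 | h1
        · exact h1
        · exact absurd ((hZc.isClosed.mem_iff_infDist_zero hZn).2 h1.symm) hxZ
      have h1 : ∀ᶠ n in atTop, e n < infDist x (Φ '' circ) :=
        (tendsto_one_div_add_atTop_nhds_zero_nat (𝕜 := ℝ)).eventually_lt_const hpos
      refine (tendsto_congr' ?_).2 tendsto_const_nhds
      filter_upwards [h1] with n hn
      rw [hκ1 n x hn.le, one_mul]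
  have h3 := le_of_tendsto_of_tendsto' hlim2.abs hlim1 hb
  exact abs_nonpos_iff.1 h3

end Pool.Agent.H89.IC
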